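import Mathlib

namespace Pool.Agent.Results.MP_21b3ca_co.SeriesParallel

open Finset

section ListOps

variable {P : Type*} [PartialOrder P]

open Classical in
/-- insertion of a letter into a word, with comparators -/
noncomputable def pass : List P → P → List P
  | [], a => [a]
  | w :: ws, a => if w < a then a :: pass ws w else w :: pass ws a

/-- remove the first letter and re-insert it -/
noncomputable def call : List P → List P
  | [] => []
  | w :: ws => pass ws w

open Classical in
/-- one row of the sorting network: a box with content `c` meets the stream `l` -/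
noncomputable def row : P → List P → P × List P
  | c, [] => (c, [])
  | c, a :: l => if c < a then ((row a l).1, c :: (row a l).2) else ((row c l).1, a :: (row c l).2)

noncomputable def strm : List P → List P
  | [] => []
  | c :: t => (row c t).2

noncomputable def promL : List P → List P
  | [] => []
  | c :: t => (row c t).2 ++ [(row c t).1]

theorem row_cons_lt {c a : P} (l : List P) (h : c < a) :
    row c (a :: l) = ((row a l).1, c :: (row a l).2) := by
  rw [row, if_pos h]

theorem row_cons_not_lt {c a : P} (l : List P) (h : ¬ c < a) :
    row c (a :: l) = ((row c l).1, a :: (row c l).2) := by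
  rw [row, if_neg h]

theorem row_length (c : P) (t : List P) : (row c t).2.length = t.length := by
  induction t generalizing c with
  | nil => simp [row]
  | cons a l ih =>
    unfold row
    split_ifs <;> simp [ih]

theorem row_perm (c : P) (t : List P) : List.Perm ((row c t).1 :: (row c t).2) (c :: t) := by
  induction t generalizing c with
  | nil => simp [row]
  | cons a l ih =>
    unfold row
    split_ifs with h
    · simp only
      have := ih a
      exact (List.Perm.swap _ _ _).trans (List.Perm.cons _ this)
    · simp only
      have := ih c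
      exact ((List.Perm.swap _ _ _).trans (List.Perm.cons _ this)).trans (List.Perm.swap _ _ _)

theorem le_row (c : P) (t : List P) : c ≤ (row c t).1 := by
  induction t generalizing c with
  | nil => simp [row]
  | cons a l ih =>
    unfold row
    split_ifs with h
    · exact h.le.trans (ih a)
    · exact ih c

theorem row_not_lt (c : P) (t : List P) : ∀ x ∈ (row c t).2, ¬ (row c t).1 < x := by
  induction t generalizing c with
  | nil => simp [row]
  | cons a l ih =>
    unfold row
    split_ifs with h
    · intro x hx
      simp only [List.mem_cons] at hx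
      rcases hx with rfl | hx
      · intro h2
        exact absurd (h.le.trans (le_row a l)) (not_le_of_gt h2)
      · exact ih a x hx
    · intro x hx
      simp only [List.mem_cons] at hx
      rcases hx with rfl | hx
      · intro h2
        exact h (lt_of_le_of_lt (le_row c l) h2)
      · exact ih c x hx

theorem row_pairwise (c : P) (R : List P) (hR : R.Pairwise (fun a b => ¬ b < a))
    (hc : ∀ r ∈ R, ¬ r < c) :
    ((row c R).2 ++ [(row c R).1]).Pairwise (fun a b => ¬ b < a) := by
  induction R generalizing c with
  | nil => simp [row]
  | cons a l ih =>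
    rw [List.pairwise_cons] at hR
    have key : ∀ v : P, ∀ x ∈ (row v l).2 ++ [(row v l).1], x = v ∨ x ∈ l := by
      intro v x hx
      have := (row_perm v l).mem_iff (a := x)
      simp only [List.mem_append, List.mem_singleton] at hx
      simp only [List.mem_cons] at this
      tauto
    unfold row
    split_ifs with h
    · simp only [List.cons_append, List.pairwise_cons]
      refine ⟨?_, ih a hR.2 hR.1⟩
      intro x hx
      rcases key a x hx with rfl | hx
      · exact lt_asymm h
      · exact hc x (by simp [hx])
    · simp only [List.cons_append, List.pairwise_cons]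
      refine ⟨?_, ih c hR.2 (fun r hr => hc r (by simp [hr]))⟩
      intro x hx
      rcases key c x hx with rfl | hx
      · exact h
      · exact hR.1 x hx

theorem row_append (c : P) (t R : List P) :
    row c (t ++ R) = ((row (row c t).1 R).1, (row c t).2 ++ (row (row c t).1 R).2) := by
  induction t generalizing c with
  | nil => simp [row]
  | cons a l ih =>
    rw [List.cons_append]
    by_cases h : c < a
    · rw [row_cons_lt _ h, row_cons_lt _ h, ih a]; simp
    · rw [row_cons_not_lt _ h, row_cons_not_lt _ h, ih c]; simp

theorem strm_length (l : List P) : (strm l).length = l.length - 1 := by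
  cases l with
  | nil => simp [strm]
  | cons c t => simp [strm, row_length]

theorem strm_iter_length (l : List P) (k : ℕ) : (strm^[k] l).length = l.length - k := by
  induction k generalizing l with
  | zero => simp
  | succ k ih => rw [Function.iterate_succ_apply, ih, strm_length]; omega

/-- structure of iterated list promotion -/
theorem promL_iter (l : List P) (k : ℕ) (hk : k ≤ l.length) :
    ∃ R : List P, promL^[k] l = strm^[k] l ++ R ∧ R.Pairwise (fun a b => ¬ b < a) ∧
      ∀ a ∈ strm^[k] l, ∀ b ∈ R, ¬ b < a := by
  induction k with
  | zero => exact ⟨[], by simp⟩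
  | succ k ih =>
    obtain ⟨R, h1, h2, h3⟩ := ih (by omega)
    rw [Function.iterate_succ_apply', Function.iterate_succ_apply', h1]
    have hlen : (strm^[k] l).length = l.length - k := strm_iter_length l k
    cases hS : strm^[k] l with
    | nil => rw [hS] at hlen; simp at hlen; omega
    | cons c t =>
      rw [hS] at h3
      refine ⟨(row (row c t).1 R).2 ++ [(row (row c t).1 R).1], ?_, ?_, ?_⟩
      · simp only [List.cons_append, promL, strm]
        rw [row_append]
        simp
      · apply row_pairwise _ _ h2
        intro r hr
        apply h3 _ _ r hr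
        have := (row_perm c t).mem_iff (a := (row c t).1)
        exact this.1 (by simp)
      · intro a ha b hb
        simp only [strm] at ha
        have hb' : b = (row c t).1 ∨ b ∈ R := by
          have := (row_perm (row c t).1 R).mem_iff (a := b)
          simp only [List.mem_append, List.mem_singleton] at hb
          simp only [List.mem_cons] at this
          tauto
        have ha' : a ∈ c :: t := (row_perm c t).mem_iff.1 (by simp [ha])
        rcases hb' with rfl | hb'
        · exact row_not_lt c t a ha
        · exact h3 a ha' b hb'

/-- duality between rows and insertions -/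
theorem foldl_pass (w l : List P) (c : P) :
    l.foldl pass (c :: w) = (row c l).1 :: (row c l).2.foldl pass w := by
  induction l generalizing c w with
  | nil => simp [row]
  | cons a l ih =>
    rw [List.foldl_cons]
    unfold row
    split_ifs with h
    · simp only [List.foldl_cons]
      rw [← ih]
      simp [pass, h]
    · simp only [List.foldl_cons]
      rw [← ih]
      simp [pass, h]

theorem getLast_colword (m : ℕ) (ρ : List P) (a : P) (h : strm^[m] ρ = [a]) :
    (ρ.foldl pass []).getLast? = some a := by
  induction m generalizing ρ with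
  | zero => simp at h; subst h; simp [pass]
  | succ m ih =>
    rw [Function.iterate_succ_apply] at h
    cases ρ with
    | nil => 
      have := strm_iter_length (P := P) (strm []) m
      rw [h] at this; simp [strm] at this
    | cons c t =>
      have h2 := ih _ h
      have : List.foldl pass [] (c :: t) = (row c t).1 :: (row c t).2.foldl pass [] := by
        rw [List.foldl_cons]; simp only [pass]; rw [foldl_pass]
      rw [this]
      simp only [strm] at h2
      rw [List.getLast?_cons, h2]; simp

theorem strm_iter_subset (m : ℕ) (ρ : List P) (x : P) (hx : x ∈ strm^[m] ρ) : x ∈ ρ := by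
  induction m generalizing ρ with
  | zero => simpa using hx
  | succ m ih =>
    rw [Function.iterate_succ_apply] at hx
    have := ih _ hx
    cases ρ with
    | nil => simp [strm] at this
    | cons c t => exact (row_perm c t).mem_iff.1 (by simp only [strm] at this; simp [this])

/-- the lower element of the final inverted pair was last from the start -/
theorem last_of_pair (m : ℕ) (S : List P) (a b : P) (h : strm^[m] S = [a, b]) (hba : b < a) :
    ∃ ρ, S = ρ ++ [b] ∧ strm^[m] ρ = [a] := by
  induction m generalizing S with
  | zero => exact ⟨[a], by simpa using h, rfl⟩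
  | succ m ih =>
    rw [Function.iterate_succ_apply] at h
    obtain ⟨ρ', h1, h2⟩ := ih _ h
    cases S with
    | nil => simp [strm] at h1
    | cons c t =>
      simp only [strm] at h1
      have ha : a ∈ ρ' := strm_iter_subset m ρ' a (by rw [h2]; simp)
      rcases List.eq_nil_or_concat' t with rfl | ⟨t0, d, rfl⟩
      · simp [row] at h1
      · rw [row_append] at h1
        simp only at h1
        by_cases h3 : (row c t0).1 < d
        · rw [row_cons_lt _ h3] at h1
          simp only [row] at h1
          have h4 := List.append_inj' h1 (by simp)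
          have h5 : (row c t0).1 = b := by simpa using h4.2
          have h6 : (row c t0).2 = ρ' := h4.1
          exfalso
          apply row_not_lt c t0 a (by rw [h6]; exact ha)
          rw [h5]; exact hba
        · rw [row_cons_not_lt _ h3] at h1
          simp only [row] at h1
          have h4 := List.append_inj' h1 (by simp)
          have h5 : d = b := by simpa using h4.2
          have h6 : (row c t0).2 = ρ' := h4.1
          refine ⟨c :: t0, by simp [h5], ?_⟩
          rw [Function.iterate_succ_apply]
          simp only [strm]
          rw [h6]; exact h2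

end ListOps


section Promotion

variable {P : Type*} [PartialOrder P]

/-- The `L`-successor of `x`: the element `y > x` whose label is smallest
(and `x` itself when `x` is maximal). -/
noncomputable def lsucc (L : P → ℕ) (x : P) : P :=
  open Classical in
  if h : {y | x < y}.Nonempty then Function.argminOn L {y | x < y} h else x

/-- `x` lies on the promotion path `v₁, v₂, …` of `L`, where `v₁ = L⁻¹(1)` and `v_{i+1}` is the
`L`-successor of `v_i` (the path stays constant once a maximal element is reached). -/
def OnPath (L : P → ℕ) (x : P) : Prop :=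
  ∃ v, L v = 1 ∧ ∃ i : ℕ, x = (lsucc L)^[i] v

/-- Extended promotion. -/
noncomputable def promo [Fintype P] (L : P → ℕ) (x : P) : ℕ :=
  open Classical in
  if OnPath L x then (if ∃ y, x < y then L (lsucc L x) - 1 else Fintype.card P) else L x - 1

/-- `L` is order preserving. -/
def IsLinExt (L : P → ℕ) : Prop := ∀ x y, x < y → L x < L y

/-- `L` is tangled: its sorting time is `n - 1`. -/
def Tangled [Fintype P] (L : P → ℕ) : Prop :=
  IsLeast {k : ℕ | IsLinExt (promo^[k] L)} (Fintype.card P - 1)

theorem lsucc_of_lt {L : P → ℕ} {x y : P} (h : x < y) : x < lsucc L x ∧ L (lsucc L x) ≤ L y := by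
  have hne : {y | x < y}.Nonempty := ⟨y, h⟩
  unfold lsucc
  rw [dif_pos hne]
  exact ⟨Function.argminOn_mem L _ hne, Function.argminOn_le L _ h⟩

theorem lsucc_of_max {L : P → ℕ} {x : P} (h : ¬ ∃ y, x < y) : lsucc L x = x := by
  unfold lsucc
  rw [dif_neg]
  rintro ⟨y, hy⟩
  exact h ⟨y, hy⟩

theorem le_lsucc (L : P → ℕ) (x : P) : x ≤ lsucc L x := by
  by_cases h : ∃ y, x < y
  · obtain ⟨y, hy⟩ := h
    exact (lsucc_of_lt hy).1.le
  · rw [lsucc_of_max h]

theorem path_le (L : P → ℕ) (v : P) (i j : ℕ) (h : i ≤ j) :
    (lsucc L)^[i] v ≤ (lsucc L)^[j] v := by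
  induction j, h using Nat.le_induction with
  | base => exact le_rfl
  | succ j _ ih =>
    rw [Function.iterate_succ_apply']
    exact ih.trans (le_lsucc L _)

theorem path_label_step (L : P → ℕ) (v : P) (hv : L v = 1) (hpos : ∀ x, 1 ≤ L x) (i : ℕ) :
    L ((lsucc L)^[i] v) ≤ L ((lsucc L)^[i+1] v) := by
  rw [Function.iterate_succ_apply']
  by_cases hm : ∃ y, (lsucc L)^[i] v < y
  · obtain ⟨y, hy⟩ := hm
    cases i with
    | zero => simp only [Function.iterate_zero, id]; rw [hv]; exact hpos _
    | succ i =>
      rw [Function.iterate_succ_apply'] at hy ⊢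
      have h1 := (lsucc_of_lt (L := L) hy).1
      have h0 : (lsucc L)^[i] v < lsucc L (lsucc L ((lsucc L)^[i] v)) :=
        lt_of_le_of_lt (le_lsucc L _) h1
      exact (lsucc_of_lt h0).2
  · rw [lsucc_of_max hm]

theorem path_label_mono (L : P → ℕ) (v : P) (hv : L v = 1) (hpos : ∀ x, 1 ≤ L x) (i j : ℕ)
    (h : i ≤ j) : L ((lsucc L)^[i] v) ≤ L ((lsucc L)^[j] v) := by
  induction j, h using Nat.le_induction with
  | base => exact le_rfl
  | succ j _ ih => exact ih.trans (path_label_step L v hv hpos j)

theorem onPath_lt {L : P → ℕ} (hinj : Function.Injective L) (hpos : ∀ x, 1 ≤ L x) {x y : P}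
    (hx : OnPath L x) (hy : OnPath L y) (hlt : L x < L y) : x < y := by
  obtain ⟨v, hv, i, rfl⟩ := hx
  obtain ⟨v', hv', j, rfl⟩ := hy
  have : v = v' := hinj (hv.trans hv'.symm)
  subst this
  rcases le_total i j with h | h
  · refine lt_of_le_of_ne (path_le L v i j h) ?_
    intro he; rw [he] at hlt; exact lt_irrefl _ hlt
  · exact absurd (path_label_mono L v hv hpos j i h) (by omega)

theorem onPath_lsucc {L : P → ℕ} {x : P} (hx : OnPath L x) : OnPath L (lsucc L x) := by
  obtain ⟨v, hv, i, rfl⟩ := hx
  exact ⟨v, hv, i + 1, by rw [Function.iterate_succ_apply']⟩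

/-- `ℓ` lists all elements of `P` in the order of their labels. -/
structure Rep (L : P → ℕ) (ℓ : List P) : Prop where
  nodup : ℓ.Nodup
  mem : ∀ x, x ∈ ℓ
  lab : ∀ i (h : i < ℓ.length), L ℓ[i] = i + 1

theorem Rep.inj {L : P → ℕ} {ℓ : List P} (h : Rep L ℓ) : Function.Injective L := by
  intro x y hxy
  obtain ⟨i, hi, rfl⟩ := List.getElem_of_mem (h.mem x)
  obtain ⟨j, hj, rfl⟩ := List.getElem_of_mem (h.mem y)
  rw [h.lab, h.lab] at hxy
  have : i = j := by omega
  subst this; rfl

theorem Rep.pos {L : P → ℕ} {ℓ : List P} (h : Rep L ℓ) (x : P) : 1 ≤ L x := by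
  obtain ⟨i, hi, rfl⟩ := List.getElem_of_mem (h.mem x)
  rw [h.lab]; omega

theorem Rep.card [Fintype P] {L : P → ℕ} {ℓ : List P} (h : Rep L ℓ) :
    ℓ.length = Fintype.card P := by
  classical
  rw [← List.toFinset_card_of_nodup h.nodup, ← Finset.card_univ]
  congr 1
  ext x; simp [h.mem x]

theorem promo_row [Fintype P] {L : P → ℕ} (hinj : Function.Injective L) (hpos : ∀ x, 1 ≤ L x)
    (t : List P) (v : P) (k : ℕ) (hlab : ∀ i (h : i < t.length), L t[i] = k + 1 + i)
    (hv : OnPath L v) (hvk : L v ≤ k) (hup : ∀ y, v < y → k < L y) (hall : ∀ x, k < L x → x ∈ t) :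
    (∀ i (h : i < (row v t).2.length), promo L (row v t).2[i] = k + i) ∧
      promo L (row v t).1 = Fintype.card P := by
  induction t generalizing v k with
  | nil =>
    refine ⟨by simp [row], ?_⟩
    simp only [row]
    unfold promo
    rw [if_pos hv, if_neg]
    rintro ⟨y, hy⟩
    have := hall y (hup y hy)
    simp at this
  | cons a l ih =>
    have ha : L a = k + 1 := by
      have := hlab 0 (by simp)
      rwa [List.getElem_cons_zero] at this
    have hl : ∀ i (h : i < l.length), L l[i] = (k + 1) + 1 + i := by
      intro i h
      have := hlab (i+1) (by simp; omega)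
      simp only [List.getElem_cons_succ] at this
      omega
    have hall' : ∀ x, k + 1 < L x → x ∈ l := by
      intro x hx
      have := hall x (by omega)
      rcases List.mem_cons.1 this with rfl | h
      · omega
      · exact h
    by_cases h : v < a
    · rw [row_cons_lt _ h]
      have hs : lsucc L v = a := by
        have h1 := lsucc_of_lt (L := L) h
        have h2 := hup _ h1.1
        apply hinj; omega
      have hap : OnPath L a := hs ▸ onPath_lsucc hv
      obtain ⟨i1, i2⟩ := ih a (k+1) hl hap (by omega) (by
        intro y hy
        have h1 := hup y (h.trans hy)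
        have h2 : L y ≠ L a := fun he => (ne_of_gt hy) (hinj he)
        omega) hall'
      refine ⟨?_, i2⟩
      intro i hi
      cases i with
      | zero =>
        simp only [List.getElem_cons_zero]
        unfold promo
        rw [if_pos hv, if_pos ⟨a, h⟩, hs, ha]; omega
      | succ i =>
        simp only [List.getElem_cons_succ]
        rw [i1 i (by simpa using hi)]; omega
    · rw [row_cons_not_lt _ h]
      have hnp : ¬ OnPath L a := fun hp => h (onPath_lt hinj hpos hv hp (by omega))
      obtain ⟨i1, i2⟩ := ih v (k+1) hl hv (by omega) (by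
        intro y hy
        have h1 := hup y hy
        have h2 : L y ≠ L a := fun he => h (hinj he ▸ hy)
        omega) hall'
      refine ⟨?_, i2⟩
      intro i hi
      cases i with
      | zero =>
        simp only [List.getElem_cons_zero]
        unfold promo
        rw [if_neg hnp, ha]; omega
      | succ i =>
        simp only [List.getElem_cons_succ]
        rw [i1 i (by simpa using hi)]; omega

theorem Rep.promo [Fintype P] {L : P → ℕ} {ℓ : List P} (h : Rep L ℓ) :
    Rep (promo L) (promL ℓ) := by
  cases ℓ with
  | nil => exact ⟨by simp [promL], fun x => absurd (h.mem x) (by simp), by simp [promL]⟩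
  | cons c t =>
    have hc : L c = 1 := by
      have := h.lab 0 (by simp)
      rwa [List.getElem_cons_zero] at this
    have hperm : List.Perm (promL (c :: t)) (c :: t) := by
      simp only [promL]
      exact (List.perm_append_singleton _ _).trans (row_perm c t)
    obtain ⟨h1, h2⟩ := promo_row h.inj h.pos t c 1 (by
        intro i hi
        have := h.lab (i+1) (by simp; omega)
        simp only [List.getElem_cons_succ] at this
        omega) ⟨c, hc, 0, rfl⟩ (by omega) (by
        intro y hy
        have := h.pos y
        have h3 : L y ≠ L c := fun he => (ne_of_gt hy) (h.inj he)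
        omega) (by
        intro x hx
        rcases List.mem_cons.1 (h.mem x) with rfl | h4
        · omega
        · exact h4)
    refine ⟨hperm.nodup_iff.2 h.nodup, fun x => hperm.mem_iff.2 (h.mem x), ?_⟩
    intro i hi
    simp only [promL] at hi ⊢
    by_cases hi2 : i < (row c t).2.length
    · rw [List.getElem_append_left hi2, h1 i hi2]; omega
    · have hlen := row_length c t
      have hi3 : i = (row c t).2.length := by simp at hi; omega
      subst hi3
      rw [List.getElem_append_right (le_refl _)]
      simp only [Nat.sub_self, List.getElem_cons_zero]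
      rw [h2, ← h.card]; simp; omega

theorem Rep.iter [Fintype P] {L : P → ℕ} {ℓ : List P} (h : Rep L ℓ) (k : ℕ) :
    Rep (SeriesParallel.promo^[k] L) (promL^[k] ℓ) := by
  induction k with
  | zero => simpa using h
  | succ k ih =>
    rw [Function.iterate_succ_apply', Function.iterate_succ_apply']
    exact ih.promo

theorem Rep.linExt {L : P → ℕ} {ℓ : List P} (h : Rep L ℓ)
    (hp : ℓ.Pairwise (fun a b => ¬ b < a)) : IsLinExt L := by
  intro x y hxy
  obtain ⟨i, hi, rfl⟩ := List.getElem_of_mem (h.mem x)
  obtain ⟨j, hj, rfl⟩ := List.getElem_of_mem (h.mem y)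
  rw [h.lab, h.lab]
  by_contra hcon
  have hne : i ≠ j := by rintro rfl; exact lt_irrefl _ hxy
  have hji : j < i := by omega
  exact List.pairwise_iff_getElem.1 hp j i hj hi hji hxy

/-- `x` covers the minimal element `b` and nothing else lies below `x`, inside `S`. -/
def Act (S : Finset P) (b x : P) : Prop :=
  b ∈ S ∧ x ∈ S ∧ b < x ∧ ∀ y ∈ S, y < x → y = b

theorem tangled_struct [Fintype P] (hn : 2 ≤ Fintype.card P) {L : P → ℕ} {ℓ : List P}
    (h : Rep L ℓ) (ht : Tangled L) :
    ∃ σ z b a, ℓ = σ ++ [z] ++ [b] ∧ (pass (σ.foldl pass []) z).getLast? = some a ∧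
      Act Finset.univ b a := by
  have hlen := h.card
  have hnot : ¬ IsLinExt (SeriesParallel.promo^[Fintype.card P - 2] L) := by
    intro hl
    have := ht.2 hl
    omega
  have hrep := h.iter (Fintype.card P - 2)
  obtain ⟨R, h1, h2, h3⟩ := promL_iter ℓ (Fintype.card P - 2) (by omega)
  have hS := strm_iter_length ℓ (Fintype.card P - 2)
  obtain ⟨a, b, hab⟩ : ∃ a b, strm^[Fintype.card P - 2] ℓ = [a, b] := by
    apply List.length_eq_two.1; rw [hS]; omega
  rw [hab] at h1 h3
  have hba : b < a := by
    by_contra hcon
    apply hnot
    apply hrep.linExt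
    rw [h1]
    simp only [List.cons_append, List.nil_append, List.pairwise_cons]
    refine ⟨?_, ?_, h2⟩
    · intro x hx
      rcases List.mem_cons.1 hx with rfl | hx
      · exact hcon
      · exact h3 a (by simp) x hx
    · intro x hx
      exact h3 b (by simp) x hx
  have hact : Act Finset.univ b a := by
    refine ⟨Finset.mem_univ _, Finset.mem_univ _, hba, ?_⟩
    intro y _ hy
    have := hrep.mem y
    rw [h1] at this
    simp only [List.cons_append, List.nil_append, List.mem_cons] at this
    rcases this with rfl | rfl | h4
    · exact absurd hy (lt_irrefl _)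
    · rfl
    · exact absurd hy (h3 a (by simp) y h4)
  obtain ⟨ρ, r1, r2⟩ := last_of_pair _ ℓ a b hab hba
  have r3 := getLast_colword _ ρ a r2
  have hρ : ρ ≠ [] := by
    rintro rfl
    have h5 := congrArg List.length r1
    simp only [List.nil_append, List.length_singleton] at h5
    omega
  obtain ⟨σ, z, rfl⟩ : ∃ σ z, ρ = σ ++ [z] := ⟨ρ.dropLast, ρ.getLast hρ, (List.dropLast_append_getLast hρ).symm⟩
  refine ⟨σ, z, b, a, r1, ?_, hact⟩
  simpa using r3

end Promotion

section Runs

variable {P : Type*} [PartialOrder P]

/-- run a pattern of joins (`true`) and calls (`false`) on the letters `σ`, starting from `w` -/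
noncomputable def run : List Bool → List P → List P → List P
  | [], _, w => w
  | true :: π, x :: σ, w => run π σ (pass w x)
  | true :: _, [], w => w
  | false :: π, σ, w => run π σ (call w)

/-- the same for words without order relations -/
def crun {β : Type*} : List Bool → List β → List β → List β
  | [], _, w => w
  | true :: π, x :: σ, w => crun π σ (w ++ [x])
  | true :: _, [], w => w
  | false :: π, σ, [] => crun π σ []
  | false :: π, σ, x :: w => crun π σ (w ++ [x])

/-- the pattern seen by the letters of colour `true` -/
def sub : List Bool → List Bool → List Bool → List Bool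
  | [], _, _ => []
  | true :: π, x :: σ, w => (if x = true then [true] else []) ++ sub π σ (w ++ [x])
  | true :: _, [], _ => []
  | false :: π, σ, [] => sub π σ []
  | false :: π, σ, x :: w => (if x = true then [false] else []) ++ sub π σ (w ++ [x])

/-- pattern seen by the lower part of an ordinal sum -/
def serp : List Bool → List Bool → List Bool
  | [], _ => []
  | true :: π, x :: σ => x :: serp π σ
  | true :: _, [] => []
  | false :: π, σ => false :: serp π σ

theorem pass_length (w : List P) (a : P) : (pass w a).length = w.length + 1 := by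
  induction w generalizing a with
  | nil => simp [pass]
  | cons x w ih => unfold pass; split_ifs <;> simp [ih]

theorem pass_perm (w : List P) (a : P) : List.Perm (pass w a) (a :: w) := by
  induction w generalizing a with
  | nil => simp [pass]
  | cons x w ih =>
    unfold pass
    split_ifs
    · exact List.Perm.cons _ (ih x)
    · exact (List.Perm.cons _ (ih a)).trans (List.Perm.swap _ _ _)

theorem call_perm (w : List P) : List.Perm (call w) w := by
  cases w with
  | nil => simp [call]
  | cons x w => exact pass_perm w x

theorem pass_cons_lt {w a : P} (ws : List P) (h : w < a) : pass (w :: ws) a = a :: pass ws w := by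
  rw [pass, if_pos h]

theorem pass_cons_not_lt {w a : P} (ws : List P) (h : ¬ w < a) :
    pass (w :: ws) a = w :: pass ws a := by
  rw [pass, if_neg h]

theorem pass_ne_nil (w : List P) (a : P) : pass w a ≠ [] := by
  intro h; have := pass_length w a; rw [h] at this; simp at this

/-- the exit letter is below the inserted letter -/
theorem exit_le (w : List P) (a x : P) (h : (pass w a).getLast? = some x) : x ≤ a := by
  induction w generalizing a with
  | nil => simp [pass] at h; exact h.symm.le
  | cons y w ih =>
    by_cases hy : y < a
    · rw [pass_cons_lt _ hy, List.getLast?_cons] at h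
      have h2 : (pass w y).getLast? = some ((pass w y).getLast (pass_ne_nil _ _)) :=
        List.getLast?_eq_some_getLast _
      rw [h2] at h
      simp only [Option.getD_some, Option.some.injEq] at h
      exact (ih y (by rw [h2, h])).trans hy.le
    · rw [pass_cons_not_lt _ hy, List.getLast?_cons] at h
      have h2 : (pass w a).getLast? = some ((pass w a).getLast (pass_ne_nil _ _)) :=
        List.getLast?_eq_some_getLast _
      rw [h2] at h
      simp only [Option.getD_some, Option.some.injEq] at h
      exact ih a (by rw [h2, h])

theorem run_replicate (σ w : List P) : run (List.replicate σ.length true) σ w = σ.foldl pass w := by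
  induction σ generalizing w with
  | nil => simp [run]
  | cons a σ ih => simp [List.replicate_succ, run, ih]

theorem run_mem (π : List Bool) (σ w : List P) (x : P) (hx : x ∈ run π σ w) : x ∈ σ ∨ x ∈ w := by
  induction π generalizing σ w with
  | nil => right; simpa [run] using hx
  | cons b π ih =>
    cases b with
    | true =>
      cases σ with
      | nil => right; simpa [run] using hx
      | cons a σ =>
        simp only [run] at hx
        rcases ih _ _ hx with h | h
        · left; simp [h]
        · have := (pass_perm w a).mem_iff.1 h
          simp only [List.mem_cons] at this ⊢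
          tauto
    | false =>
      simp only [run] at hx
      rcases ih _ _ hx with h | h
      · left; exact h
      · right; exact (call_perm w).mem_iff.1 h

theorem run_length (π : List Bool) (σ w : List P) (h : π.count true = σ.length) :
    (run π σ w).length = w.length + σ.length := by
  induction π generalizing σ w with
  | nil => simp at h; simp [run, ← h]
  | cons b π ih =>
    cases b with
    | true =>
      cases σ with
      | nil => simp at h
      | cons a σ =>
        simp only [run]
        rw [ih _ _ (by simpa using h), pass_length]; simp; omega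
    | false =>
      simp only [run]
      rw [ih _ _ (by simpa using h), (call_perm w).length_eq]

theorem crun_length {β : Type*} (π : List Bool) (σ w : List β) (h : π.count true = σ.length) :
    (crun π σ w).length = w.length + σ.length := by
  induction π generalizing σ w with
  | nil => simp at h; simp [crun, ← h]
  | cons b π ih =>
    cases b with
    | true =>
      cases σ with
      | nil => simp at h
      | cons a σ =>
        simp only [crun]
        rw [ih _ _ (by simpa using h)]; simp; omega
    | false =>
      cases w with
      | nil => simp only [crun]; rw [ih _ _ (by simpa using h)]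
      | cons x w => simp only [crun]; rw [ih _ _ (by simpa using h)]; simp

theorem crun_map {β γ : Type*} (f : β → γ) (π : List Bool) (σ w : List β) :
    crun π (σ.map f) (w.map f) = (crun π σ w).map f := by
  induction π generalizing σ w with
  | nil => simp [crun]
  | cons b π ih =>
    cases b with
    | true =>
      cases σ with
      | nil => simp [crun]
      | cons a σ =>
        simp only [crun, List.map_cons]
        rw [← ih]; simp
    | false =>
      cases w with
      | nil => simp only [crun, List.map_nil]; rw [← ih]; simp
      | cons x w => simp only [crun, List.map_cons]; rw [← ih]; simp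

theorem sub_count (π c w : List Bool) (h : π.count true = c.length) :
    (sub π c w).count true = c.count true := by
  induction π generalizing c w with
  | nil =>
    have : c = [] := List.length_eq_zero_iff.1 (by simpa using h.symm)
    simp [sub, this]
  | cons b π ih =>
    cases b with
    | true =>
      cases c with
      | nil => simp at h
      | cons a c =>
        simp only [sub, List.count_append]
        rw [ih _ _ (by simpa using h)]
        cases a <;> simp; omega
    | false =>
      cases w with
      | nil => simp only [sub]; rw [ih _ _ (by simpa using h)]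
      | cons x w =>
        simp only [sub, List.count_append]
        rw [ih _ _ (by simpa using h)]
        cases x <;> simp

theorem serp_count (π c : List Bool) (h : π.count true = c.length) :
    (serp π c).count true = c.count true := by
  induction π generalizing c with
  | nil =>
    have : c = [] := List.length_eq_zero_iff.1 (by simpa using h.symm)
    simp [serp, this]
  | cons b π ih =>
    cases b with
    | true =>
      cases c with
      | nil => simp at h
      | cons a c =>
        simp only [serp, List.count_cons]
        rw [ih _ (by simpa using h)]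
    | false =>
      simp only [serp, List.count_cons]
      rw [ih _ (by simpa using h)]; simp

/-- colours and insertion -/
theorem pass_color (side : P → Bool) (w : List P) (a : P)
    (h : ∀ x ∈ a :: w, ∀ y ∈ a :: w, x < y → side x = side y) :
    (pass w a).map side = w.map side ++ [side a] ∧
      (pass w a).filter side =
        if side a then pass (w.filter side) a else w.filter side := by
  induction w generalizing a with
  | nil => cases hs : side a <;> simp [pass, hs]
  | cons x w ih =>
    by_cases hx : x < a
    · rw [pass_cons_lt _ hx]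
      have hxa : side x = side a := h x (by simp) a (by simp) hx
      have h' := ih x (by
        intro y hy z hz
        exact h y (by simp only [List.mem_cons] at hy ⊢; tauto) z
          (by simp only [List.mem_cons] at hz ⊢; tauto))
      constructor
      · simp [h'.1, hxa]
      · cases hs : side a
        · rw [List.filter_cons, List.filter_cons, h'.2]; simp [hs, hxa]
        · rw [List.filter_cons, List.filter_cons, h'.2]
          simp only [hs, hxa, if_true]
          rw [pass_cons_lt _ hx]
    · rw [pass_cons_not_lt _ hx]
      have h' := ih a (by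
        intro y hy z hz
        exact h y (by simp only [List.mem_cons] at hy ⊢; tauto) z
          (by simp only [List.mem_cons] at hz ⊢; tauto))
      constructor
      · simp [h'.1]
      · cases hs : side a
        · rw [List.filter_cons, List.filter_cons, h'.2]; simp [hs]
        · rw [List.filter_cons, List.filter_cons, h'.2]
          simp only [hs, if_true]
          cases hsx : side x
          · simp
          · simp only [if_true]; rw [pass_cons_not_lt _ hx]

theorem run_color (side : P → Bool) (A : Set P) (hA : ∀ x ∈ A, ∀ y ∈ A, x < y → side x = side y)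
    (π : List Bool) (σ w : List P) (hσ : ∀ x ∈ σ, x ∈ A) (hw : ∀ x ∈ w, x ∈ A) :
    (run π σ w).map side = crun π (σ.map side) (w.map side) ∧
      (run π σ w).filter side =
        run (sub π (σ.map side) (w.map side)) (σ.filter side) (w.filter side) := by
  induction π generalizing σ w with
  | nil => simp [run, crun, sub]
  | cons b π ih =>
    cases b with
    | true =>
      cases σ with
      | nil => simp [run, crun, sub]
      | cons a σ =>
        simp only [run, List.map_cons, crun, sub]
        have haA : a ∈ A := hσ a (by simp)
        obtain ⟨c1, c2⟩ := pass_color side w a (by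
          intro x hx y hy
          refine hA x ?_ y ?_
          · rcases List.mem_cons.1 hx with rfl | h
            · exact haA
            · exact hw x h
          · rcases List.mem_cons.1 hy with rfl | h
            · exact haA
            · exact hw y h)
        obtain ⟨i1, i2⟩ := ih σ (pass w a) (fun x hx => hσ x (by simp [hx])) (by
          intro x hx
          rcases List.mem_cons.1 ((pass_perm w a).mem_iff.1 hx) with rfl | h
          · exact haA
          · exact hw x h)
        rw [i1, i2, c1, c2]
        refine ⟨rfl, ?_⟩
        cases hs : side a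
        · simp [hs]
        · simp [hs, run]
    | false =>
      cases w with
      | nil =>
        simp only [run, call, List.map_nil, crun, sub, List.filter_nil]
        have := ih σ [] hσ (by simp)
        simpa using this
      | cons x w =>
        simp only [run, call, List.map_cons, crun, sub]
        obtain ⟨c1, c2⟩ := pass_color side w x (by
          intro y hy z hz
          exact hA y (hw y hy) z (hw z hz))
        obtain ⟨i1, i2⟩ := ih σ (pass w x) hσ (by
          intro y hy
          exact hw y ((pass_perm w x).mem_iff.1 hy))
        rw [i1, i2, c1, c2]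
        refine ⟨rfl, ?_⟩
        cases hs : side x
        · simp [hs]
        · simp [hs, run, call]

theorem getLast?_filter {α : Type*} (p : α → Bool) (l : List α) (x : α)
    (h : l.getLast? = some x) (hx : p x = true) : (l.filter p).getLast? = some x := by
  obtain ⟨l', rfl⟩ := List.getLast?_eq_some_iff.1 h
  simp [hx]

theorem getLast?_map' {α β : Type*} (f : α → β) (l : List α) (x : α)
    (h : l.getLast? = some x) : (l.map f).getLast? = some (f x) := by
  obtain ⟨l', rfl⟩ := List.getLast?_eq_some_iff.1 h
  simp

/-- exit of an insertion, seen by the colour of the inserted letter -/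
theorem exit_pass_color (side : P → Bool) (w : List P) (a x : P)
    (h : ∀ x ∈ a :: w, ∀ y ∈ a :: w, x < y → side x = side y)
    (hx : (pass w a).getLast? = some x) :
    side x = side a ∧ (side a = true → (pass (w.filter side) a).getLast? = some x) := by
  obtain ⟨c1, c2⟩ := pass_color side w a h
  have h1 := getLast?_map' side _ _ hx
  rw [c1] at h1
  have h2 : side x = side a := by simpa using h1.symm
  refine ⟨h2, fun hs => ?_⟩
  have := getLast?_filter side _ x hx (h2.trans hs)
  rw [c2] at this
  simpa [hs] using this

theorem exit_call_color (side : P → Bool) (w : List P) (x : P)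
    (h : ∀ x ∈ w, ∀ y ∈ w, x < y → side x = side y)
    (hx : (call w).getLast? = some x) :
    (w.map side).head? = some (side x) ∧
      (side x = true → (call (w.filter side)).getLast? = some x) := by
  cases w with
  | nil => simp [call] at hx
  | cons a w =>
    simp only [call] at hx
    obtain ⟨c1, c2⟩ := exit_pass_color side w a x h hx
    refine ⟨by simp [c1], fun hs => ?_⟩
    have : side a = true := by rw [← c1]; exact hs
    simp only [List.filter_cons, this, if_true, call]
    exact c2 this

/-- the head colour of a run is the colour of a fixed join -/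
theorem crun_head (π : List Bool) (N : ℕ) (hN : 1 ≤ N) (hπ : π.count true = N) :
    ∃ j, j < N ∧ ∀ cs : List Bool, cs.length = N → (crun π cs []).head? = cs[j]? := by
  have hlen := crun_length π (List.range N) [] (by simp [hπ])
  simp only [List.length_nil, List.length_range, zero_add] at hlen
  cases hr : crun π (List.range N) [] with
  | nil => rw [hr] at hlen; simp at hlen; omega
  | cons j rest =>
    have hmem : ∀ (π : List Bool) (σ w : List ℕ), ∀ x ∈ crun π σ w, x ∈ σ ∨ x ∈ w := by
      intro π
      induction π with
      | nil => intro σ w x hx; right; simpa [crun] using hx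
      | cons b π ih =>
        intro σ w x hx
        cases b with
        | true =>
          cases σ with
          | nil => right; simpa [crun] using hx
          | cons a σ =>
            simp only [crun] at hx
            rcases ih _ _ x hx with h | h
            · left; simp [h]
            · simp only [List.mem_append, List.mem_singleton, List.mem_cons] at h ⊢; tauto
        | false =>
          cases w with
          | nil => simp only [crun] at hx; exact ih _ _ x hx
          | cons y w =>
            simp only [crun] at hx
            rcases ih _ _ x hx with h | h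
            · left; exact h
            · simp only [List.mem_append, List.mem_singleton, List.mem_cons] at h ⊢; tauto
    have hj : j ∈ List.range N ∨ j ∈ ([] : List ℕ) := hmem π _ _ j (by rw [hr]; simp)
    have hjN : j < N := by simpa using hj
    refine ⟨j, hjN, ?_⟩
    intro cs hc
    have hcm : cs = (List.range N).map (fun i => cs.getD i false) := by
      apply List.ext_getElem
      · simp [hc]
      · intro i h1 h2
        simp [List.getD_eq_getElem?_getD, h1]
    have := crun_map (fun i => cs.getD i false) π (List.range N) []
    rw [← hcm] at this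
    simp only [List.map_nil] at this
    rw [this, hr]
    simp [List.getD_eq_getElem?_getD, hc, hjN]

/-- ordinal sums: upper letters act as calls on the lower part -/
theorem pass_lower (u v : List P) (a : P) (h : ∀ x ∈ u, ¬ x < a) :
    pass (u ++ v) a = u ++ pass v a := by
  induction u with
  | nil => simp
  | cons x u ih =>
    rw [List.cons_append, pass_cons_not_lt _ (h x (by simp)), ih (fun y hy => h y (by simp [hy]))]
    simp

theorem pass_upper (u v : List P) (a : P) (h : ∀ x ∈ v, ∀ y ∈ a :: u, x < y) :
    pass (u ++ v) a = pass u a ++ call v := by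
  induction u generalizing a with
  | nil =>
    cases v with
    | nil => simp [pass, call]
    | cons x v =>
      simp only [List.nil_append, call]
      rw [pass_cons_lt _ (h x (by simp) a (by simp))]
      simp [pass]
  | cons y u ih =>
    rw [List.cons_append]
    by_cases hy : y < a
    · rw [pass_cons_lt _ hy, pass_cons_lt _ hy, ih y]
      · simp
      · intro x hx z hz
        exact h x hx z (by simp only [List.mem_cons] at hz ⊢; tauto)
    · rw [pass_cons_not_lt _ hy, pass_cons_not_lt _ hy, ih a]
      · simp
      · intro x hx z hz
        exact h x hx z (by simp only [List.mem_cons] at hz ⊢; tauto)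

theorem call_upper (u v : List P) (h : ∀ x ∈ v, ∀ y ∈ u, x < y) :
    call (u ++ v) = call u ++ call v := by
  cases u with
  | nil => simp [call]
  | cons y u => simp only [List.cons_append, call]; exact pass_upper u v y h

theorem ser_run (side : P → Bool) (A : Set P)
    (hA : ∀ x ∈ A, ∀ y ∈ A, side x = true → side y = false → x < y)
    (π : List Bool) (σ u v : List P) (hσ : ∀ x ∈ σ, x ∈ A) (hu : ∀ x ∈ u, x ∈ A ∧ side x = false)
    (hv : ∀ x ∈ v, x ∈ A ∧ side x = true) :
    ∃ u', (∀ x ∈ u', x ∈ A ∧ side x = false) ∧
      run π σ (u ++ v) = u' ++ run (serp π (σ.map side)) (σ.filter side) v := by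
  induction π generalizing σ u v with
  | nil => exact ⟨u, hu, by simp [run, serp]⟩
  | cons b π ih =>
    cases b with
    | true =>
      cases σ with
      | nil => exact ⟨u, hu, by simp [run, serp]⟩
      | cons a σ =>
        have haA : a ∈ A := hσ a (by simp)
        simp only [run, List.map_cons, serp]
        cases hs : side a
        · -- upper letter
          rw [pass_upper u v a (by
            intro x hx y hy
            rcases List.mem_cons.1 hy with rfl | hy
            · exact hA x (hv x hx).1 y haA (hv x hx).2 hs
            · exact hA x (hv x hx).1 y (hu y hy).1 (hv x hx).2 (hu y hy).2)]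
          obtain ⟨u', h1, h2⟩ := ih σ (pass u a) (call v) (fun x hx => hσ x (by simp [hx]))
            (by
              intro x hx
              rcases List.mem_cons.1 ((pass_perm u a).mem_iff.1 hx) with rfl | h
              · exact ⟨haA, hs⟩
              · exact hu x h)
            (by intro x hx; exact hv x ((call_perm v).mem_iff.1 hx))
          exact ⟨u', h1, by rw [h2]; simp [hs, run]⟩
        · rw [pass_lower u v a (by
            intro x hx hlt
            exact absurd (hA a haA x (hu x hx).1 hs (hu x hx).2) (lt_asymm hlt))]
          obtain ⟨u', h1, h2⟩ := ih σ u (pass v a) (fun x hx => hσ x (by simp [hx])) hu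
            (by
              intro x hx
              rcases List.mem_cons.1 ((pass_perm v a).mem_iff.1 hx) with rfl | h
              · exact ⟨haA, hs⟩
              · exact hv x h)
          exact ⟨u', h1, by rw [h2]; simp [hs, run]⟩
    | false =>
      simp only [run, serp]
      rw [call_upper u v (by
        intro x hx y hy
        exact hA x (hv x hx).1 y (hu y hy).1 (hv x hx).2 (hu y hy).2)]
      obtain ⟨u', h1, h2⟩ := ih σ (call u) (call v) hσ
        (by intro x hx; exact hu x ((call_perm u).mem_iff.1 hx))
        (by intro x hx; exact hv x ((call_perm v).mem_iff.1 hx))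
      exact ⟨u', h1, by rw [h2]⟩

end Runs

section Counting

open Classical Nat

variable {P : Type*} [PartialOrder P]

/-- all lists enumerating the finset `S` -/
noncomputable def enum (S : Finset P) : Finset (List P) := S.toList.permutations.toFinset

omit [PartialOrder P] in
theorem mem_enum {S : Finset P} {l : List P} : l ∈ enum S ↔ l.Nodup ∧ ∀ x, x ∈ l ↔ x ∈ S := by
  unfold enum
  rw [List.mem_toFinset, List.mem_permutations]
  constructor
  · intro h
    exact ⟨h.nodup_iff.2 S.nodup_toList, fun x => by rw [h.mem_iff, Finset.mem_toList]⟩
  · rintro ⟨h1, h2⟩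
    rw [List.perm_ext_iff_of_nodup h1 S.nodup_toList]
    intro x; rw [h2, Finset.mem_toList]

omit [PartialOrder P] in
theorem card_enum (S : Finset P) : (enum S).card = S.card ! := by
  unfold enum
  rw [List.toFinset_card_of_nodup (List.nodup_permutations _ S.nodup_toList),
    List.length_permutations, Finset.length_toList]

omit [PartialOrder P] in
theorem enum_length {S : Finset P} {l : List P} (h : l ∈ enum S) : l.length = S.card := by
  rw [mem_enum] at h
  rw [← List.toFinset_card_of_nodup h.1]
  congr 1
  ext x; simp [h.2 x]

omit [PartialOrder P] in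
theorem enum_filter {S T : Finset P} {l : List P} (h : l ∈ enum T) (hST : S ⊆ T) :
    l.filter (fun x => decide (x ∈ S)) ∈ enum S := by
  rw [mem_enum] at h ⊢
  refine ⟨h.1.filter _, fun x => ?_⟩
  simp only [List.mem_filter, decide_eq_true_eq, h.2 x]
  exact ⟨fun h => h.2, fun h => ⟨hST h, h⟩⟩

omit [PartialOrder P] in
theorem enum_tail {S : Finset P} {b : P} {σ : List P} (h : b :: σ ∈ enum S) :
    σ ∈ enum (S.erase b) := by
  rw [mem_enum] at h ⊢
  obtain ⟨h1, h2⟩ := h
  rw [List.nodup_cons] at h1
  refine ⟨h1.2, fun x => ?_⟩
  rw [Finset.mem_erase, ← h2 x, List.mem_cons]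
  constructor
  · intro hx; exact ⟨fun he => h1.1 (he ▸ hx), Or.inr hx⟩
  · rintro ⟨h3, h4 | h4⟩
    · exact absurd h4 h3
    · exact h4

/-- positions of the letters of `S` -/
noncomputable def colorSet (S : Finset P) (τ : List P) : Finset ℕ :=
  (Finset.range τ.length).filter (fun i => ∃ x, τ[i]? = some x ∧ x ∈ S)

omit [PartialOrder P] in
theorem colorSet_map (S : Finset P) (τ : List P) :
    τ.map (fun x => decide (x ∈ S)) =
      (List.range τ.length).map (fun i => decide (i ∈ colorSet S τ)) := by
  apply List.ext_getElem
  · simp
  · intro i h1 h2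
    simp only [List.length_map] at h1
    simp only [List.getElem_map, List.getElem_range]
    congr 1
    simp only [colorSet, Finset.mem_filter, Finset.mem_range, h1, true_and,
      List.getElem?_eq_getElem, Option.some.injEq, exists_eq_left', eq_iff_iff]

omit [PartialOrder P] in
theorem colorSet_card {S T : Finset P} (hST : S ⊆ T) {τ : List P} (h : τ ∈ enum T) :
    colorSet S τ ∈ Finset.powersetCard S.card (Finset.range T.card) := by
  have hlen := enum_length h
  rw [Finset.mem_powersetCard]
  constructor
  · unfold colorSet
    rw [hlen]; exact Finset.filter_subset _ _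
  · rw [mem_enum] at h
    symm
    apply Finset.card_bij (fun x _ => τ.idxOf x)
    · intro x hx
      have hxt : x ∈ τ := (h.2 x).2 (hST hx)
      have hi : τ.idxOf x < τ.length := List.idxOf_lt_length_iff.2 hxt
      simp only [colorSet, Finset.mem_filter, Finset.mem_range]
      exact ⟨hi, x, by rw [List.getElem?_eq_getElem hi, List.getElem_idxOf hi], hx⟩
    · intro x hx y hy hxy
      have hxt : x ∈ τ := (h.2 x).2 (hST hx)
      exact (List.idxOf_inj hxt).1 hxy
    · intro i hi
      simp only [colorSet, Finset.mem_filter, Finset.mem_range] at hi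
      obtain ⟨hi1, x, hx1, hx2⟩ := hi
      refine ⟨x, hx2, ?_⟩
      rw [List.getElem?_eq_getElem hi1] at hx1
      have : τ[i] = x := by simpa using hx1
      rw [← this]
      exact List.Nodup.idxOf_getElem h.1 i hi1

omit [PartialOrder P] in
theorem merge_unique (p : P → Bool) (l l' : List P) (h1 : l.map p = l'.map p)
    (h2 : l.filter p = l'.filter p) (h3 : l.filter (fun x => !p x) = l'.filter (fun x => !p x)) :
    l = l' := by
  induction l generalizing l' with
  | nil =>
    cases l' with
    | nil => rfl
    | cons a l' => simp at h1
  | cons a l ih =>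
    cases l' with
    | nil => simp at h1
    | cons a' l' =>
      simp only [List.map_cons, List.cons.injEq] at h1
      cases hp : p a
      · have hp' : p a' = false := by rw [← h1.1, hp]
        simp only [List.filter_cons, hp, hp', Bool.false_eq_true, if_false, Bool.not_false,
          if_true, List.cons.injEq] at h2 h3
        rw [h3.1, ih l' h1.2 h2 h3.2]
      · have hp' : p a' = true := by rw [← h1.1, hp]
        simp only [List.filter_cons, hp, hp', Bool.not_true, Bool.false_eq_true, if_false,
          if_true, List.cons.injEq] at h2 h3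
        rw [h2.1, ih l' h1.2 h2.2 h3]

omit [PartialOrder P] in
theorem shuffle_count (S T : Finset P) (hd : Disjoint S T) (G : Finset (List P))
    (hG : G ⊆ enum (S ∪ T)) (𝒜 : Finset (Finset ℕ)) (M : ℕ)
    (h𝒜 : ∀ τ ∈ G, colorSet S τ ∈ 𝒜)
    (hM : ∀ cs : List Bool, ((enum S).filter (fun ρ => ∃ τ ∈ G,
      τ.map (fun x => decide (x ∈ S)) = cs ∧ τ.filter (fun x => decide (x ∈ S)) = ρ)).card ≤ M) :
    G.card ≤ 𝒜.card * (M * T.card !) := by
  rw [Finset.card_eq_sum_card_fiberwise (f := colorSet S) (t := 𝒜) (by
    intro τ hτ; exact h𝒜 τ hτ)]
  rw [← smul_eq_mul, ← Finset.sum_const]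
  apply Finset.sum_le_sum
  intro A hA
  set cs : List Bool := (List.range (S ∪ T).card).map (fun i => decide (i ∈ A)) with hcs
  have hmap : ∀ τ ∈ G, colorSet S τ = A → τ.map (fun x => decide (x ∈ S)) = cs := by
    intro τ hτ h
    rw [colorSet_map, h, enum_length (hG hτ), hcs]
  calc (G.filter (fun τ => colorSet S τ = A)).card
      ≤ (((enum S).filter (fun ρ => ∃ τ ∈ G,
      τ.map (fun x => decide (x ∈ S)) = cs ∧ τ.filter (fun x => decide (x ∈ S)) = ρ)) ×ˢ
          enum T).card := by
        apply Finset.card_le_card_of_injOn
          (fun τ => (τ.filter (fun x => decide (x ∈ S)), τ.filter (fun x => !decide (x ∈ S))))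
        · intro τ hτ
          simp only [Finset.coe_filter, Set.mem_setOf_eq] at hτ
          simp only [Finset.coe_product, Set.mem_prod, Finset.mem_coe, Finset.mem_filter]
          refine ⟨⟨enum_filter (hG hτ.1) Finset.subset_union_left, τ, hτ.1,
            hmap τ hτ.1 hτ.2, rfl⟩, ?_⟩
          have h1 := hG hτ.1
          rw [mem_enum] at h1 ⊢
          refine ⟨h1.1.filter _, fun x => ?_⟩
          simp only [List.mem_filter, h1.2 x, Finset.mem_union, Bool.not_eq_true',
            decide_eq_false_iff_not]
          constructor
          · rintro ⟨h | h, h'⟩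
            · exact absurd h h'
            · exact h
          · intro h
            exact ⟨Or.inr h, fun h' => Finset.disjoint_left.1 hd h' h⟩
        · intro τ hτ τ' hτ' h
          simp only [Finset.coe_filter, Set.mem_setOf_eq] at hτ hτ'
          simp only [Prod.mk.injEq] at h
          exact merge_unique _ τ τ' ((hmap τ hτ.1 hτ.2).trans (hmap τ' hτ'.1 hτ'.2).symm) h.1 h.2
    _ ≤ M * T.card ! := by
        rw [Finset.card_product, card_enum]
        exact Nat.mul_le_mul_right _ (hM cs)

theorem card_A0 (n k : ℕ) (hk : 1 ≤ k) :
    ((Finset.powersetCard k (Finset.range n)).filter (fun A => 0 ∈ A)).card ≤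
      (n - 1).choose (k - 1) := by
  by_cases hn : n = 0
  · subst hn
    have : ((Finset.powersetCard k (Finset.range 0)).filter (fun A => 0 ∈ A)) = ∅ := by
      ext A
      simp only [Finset.range_zero, Finset.mem_filter, Finset.mem_powersetCard,
        Finset.subset_empty, Finset.notMem_empty, iff_false, not_and]
      rintro ⟨rfl, _⟩; simp
    rw [this]; simp
  · have h : (Finset.powersetCard (k-1) ((Finset.range n).erase 0)).card = (n-1).choose (k-1) := by
      rw [Finset.card_powersetCard, Finset.card_erase_of_mem (by simp; omega), Finset.card_range]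
    rw [← h]
    apply Finset.card_le_card_of_injOn (fun A => A.erase 0)
    · intro A hA
      simp only [Finset.coe_filter, Finset.mem_powersetCard, Set.mem_setOf_eq] at hA
      simp only [Finset.mem_coe, Finset.mem_powersetCard]
      refine ⟨Finset.erase_subset_erase _ hA.1.1, ?_⟩
      rw [Finset.card_erase_of_mem hA.2, hA.1.2]
    · intro A hA B hB hAB
      simp only [Finset.coe_filter, Finset.mem_powersetCard, Set.mem_setOf_eq] at hA hB
      simp only at hAB
      rw [← Finset.insert_erase hA.2, hAB, Finset.insert_erase hB.2]

theorem card_A1 (n k j : ℕ) (hk : 2 ≤ k) :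
    ((Finset.powersetCard k (Finset.range n)).filter (fun A => 0 ∈ A ∧ j + 1 ∈ A)).card ≤
      (n - 2).choose (k - 2) := by
  by_cases hn : j + 1 < n
  · have h : (Finset.powersetCard (k-2) (((Finset.range n).erase 0).erase (j+1))).card =
        (n-2).choose (k-2) := by
      rw [Finset.card_powersetCard, Finset.card_erase_of_mem (by simp; omega),
        Finset.card_erase_of_mem (by simp; omega), Finset.card_range]
      rfl
    rw [← h]
    apply Finset.card_le_card_of_injOn (fun A => (A.erase 0).erase (j+1))
    · intro A hA
      simp only [Finset.coe_filter, Finset.mem_powersetCard, Set.mem_setOf_eq] at hA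
      simp only [Finset.mem_coe, Finset.mem_powersetCard]
      refine ⟨Finset.erase_subset_erase _ (Finset.erase_subset_erase _ hA.1.1), ?_⟩
      rw [Finset.card_erase_of_mem (by simp [hA.2.2]), Finset.card_erase_of_mem hA.2.1, hA.1.2]
      omega
    · intro A hA B hB hAB
      simp only [Finset.coe_filter, Finset.mem_powersetCard, Set.mem_setOf_eq] at hA hB
      simp only at hAB
      have h1 : A.erase 0 = B.erase 0 := by
        rw [← Finset.insert_erase (show j+1 ∈ A.erase 0 by simp [hA.2.2]), hAB,
          Finset.insert_erase (show j+1 ∈ B.erase 0 by simp [hB.2.2])]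
      rw [← Finset.insert_erase hA.2.1, h1, Finset.insert_erase hB.2.1]
  · have : ((Finset.powersetCard k (Finset.range n)).filter (fun A => 0 ∈ A ∧ j + 1 ∈ A)) = ∅ := by
      ext A
      simp only [Finset.mem_filter, Finset.mem_powersetCard, Finset.notMem_empty, iff_false,
        not_and]
      rintro ⟨h1, _⟩ _ h2
      have := h1 h2
      simp at this; omega
    rw [this]; simp

/-- letters at a fixed position -/
theorem card_pos (W Y : Finset P) (j : ℕ) :
    ((enum W).filter (fun σ => ∃ y, σ[j]? = some y ∧ y ∈ Y)).card ≤ (W.card - 1)! * Y.card := by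
  have hsub : (enum W).filter (fun σ => ∃ y, σ[j]? = some y ∧ y ∈ Y) ⊆
      Y.biUnion (fun y => (enum W).filter (fun σ => σ[j]? = some y)) := by
    intro σ hσ
    simp only [Finset.mem_filter, Finset.mem_biUnion] at hσ ⊢
    obtain ⟨h1, y, h2, h3⟩ := hσ
    exact ⟨y, h3, h1, h2⟩
  refine (Finset.card_le_card hsub).trans ?_
  refine Finset.card_biUnion_le.trans ?_
  rw [mul_comm, ← smul_eq_mul, ← Finset.sum_const]
  apply Finset.sum_le_sum
  intro y _
  by_cases hy : y ∈ W
  · rw [← Finset.card_erase_of_mem hy, ← card_enum]
    apply Finset.card_le_card_of_injOn (fun σ => σ.eraseIdx j)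
    · intro σ hσ
      simp only [Finset.coe_filter, Set.mem_setOf_eq] at hσ
      obtain ⟨h1, h2⟩ := hσ
      rw [mem_enum] at h1
      simp only [Finset.mem_coe, mem_enum]
      have hj : j < σ.length := by
        by_contra hcon
        rw [List.getElem?_eq_none (by omega)] at h2; simp at h2
      have hjy : σ[j] = y := by rw [List.getElem?_eq_getElem hj] at h2; simpa using h2
      have hperm : List.Perm σ (y :: σ.eraseIdx j) := by
        rw [← hjy]; exact (List.getElem_cons_eraseIdx_perm hj).symm
      have hnd := hperm.nodup_iff.1 h1.1
      rw [List.nodup_cons] at hnd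
      refine ⟨hnd.2, fun x => ?_⟩
      rw [Finset.mem_erase, ← h1.2 x, hperm.mem_iff, List.mem_cons]
      constructor
      · intro hx; exact ⟨fun he => hnd.1 (he ▸ hx), Or.inr hx⟩
      · rintro ⟨h3, h4 | h4⟩
        · exact absurd h4 h3
        · exact h4
    · intro σ hσ σ' hσ' h
      simp only [Finset.coe_filter, Set.mem_setOf_eq] at hσ hσ'
      simp only at h
      have hj : j < σ.length := by
        by_contra hcon
        have := hσ.2
        rw [List.getElem?_eq_none (by omega)] at this; simp at this
      have hj' : j < σ'.length := by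
        by_contra hcon
        have := hσ'.2
        rw [List.getElem?_eq_none (by omega)] at this; simp at this
      have e1 : σ[j] = y := by have := hσ.2; rw [List.getElem?_eq_getElem hj] at this; simpa using this
      have e2 : σ'[j] = y := by have := hσ'.2; rw [List.getElem?_eq_getElem hj'] at this; simpa using this
      have f1 : σ = (σ.eraseIdx j).insertIdx j y := by
        rw [← e1]; exact (List.insertIdx_eraseIdx_getElem hj).symm
      have f2 : σ' = (σ'.eraseIdx j).insertIdx j y := by
        rw [← e2]; exact (List.insertIdx_eraseIdx_getElem hj').symm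
      rw [f1, f2, h]
  · have : (enum W).filter (fun σ => σ[j]? = some y) = ∅ := by
      ext σ
      simp only [Finset.mem_filter, Finset.notMem_empty, iff_false, not_and]
      intro h1 h2
      rw [mem_enum] at h1
      exact hy ((h1.2 y).1 (List.mem_of_getElem? h2))
    rw [this]; simp

end Counting

section Props

open Classical Nat

variable {P : Type*} [PartialOrder P]

/-- `τ = b :: σ`, and after the run `σ` (pattern `π`) on `S \ {b}` a final call exits in `U_b`. -/
def GoodR (S : Finset P) (π : List Bool) (τ : List P) : Prop :=
  ∃ b σ x, τ = b :: σ ∧ (call (run π σ [])).getLast? = some x ∧ Act S b x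

/-- `τ = b :: σ`, and after the run `σ` on `S \ {b, z}` the final join of `z` exits in `U_b`. -/
def GoodT (S : Finset P) (π : List Bool) (z : P) (τ : List P) : Prop :=
  ∃ b σ x, τ = b :: σ ∧ (pass (run π σ []) z).getLast? = some x ∧ Act S b x

def PR (S : Finset P) : Prop :=
  ∀ π : List Bool, π.count true = S.card - 1 →
    ((enum S).filter (GoodR S π)).card ≤ (S.card - 1)!

def PT (S : Finset P) : Prop :=
  ∀ (π : List Bool) (z : P), z ∈ S → π.count true = S.card - 2 →
    ((enum (S.erase z)).filter (GoodT S π z)).card ≤ (S.card - 2)!

theorem Act.two_le {S : Finset P} {b x : P} (h : Act S b x) : 2 ≤ S.card := by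
  have : ({b, x} : Finset P) ⊆ S := by
    intro y hy
    simp only [Finset.mem_insert, Finset.mem_singleton] at hy
    rcases hy with rfl | rfl
    · exact h.1
    · exact h.2.1
  have h2 := Finset.card_le_card this
  rwa [Finset.card_pair (ne_of_lt h.2.2.1)] at h2

/-- base case for final calls -/
theorem PR_base (S : Finset P) (Y : P → Finset P) (hY : ∀ b x, Act S b x → x ∈ Y b)
    (hsub : ∀ b ∈ S, Y b ⊆ S.erase b)
    (hinc : ∀ b ∈ S, ∀ x ∈ Y b, ∀ y ∈ S.erase b, y ∉ Y b → ¬ x < y ∧ ¬ y < x)
    (hsum : ∑ b ∈ S, (Y b).card ≤ S.card - 1) : PR S := by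
  intro π hπ
  by_cases hS : 2 ≤ S.card
  · obtain ⟨j, hj, hhead⟩ := crun_head π (S.card - 1) (by omega) hπ
    have hsub2 : (enum S).filter (GoodR S π) ⊆ S.biUnion (fun b =>
        ((enum (S.erase b)).filter (fun σ => ∃ y, σ[j]? = some y ∧ y ∈ Y b)).image
          (fun σ => b :: σ)) := by
      intro τ hτ
      rw [Finset.mem_filter] at hτ
      obtain ⟨h1, b, σ, x, rfl, h3, h4⟩ := hτ
      have hσ := enum_tail h1
      simp only [Finset.mem_biUnion, Finset.mem_image, Finset.mem_filter]
      refine ⟨b, h4.1, σ, ⟨hσ, ?_⟩, rfl⟩
      have hlen := enum_length hσ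
      rw [Finset.card_erase_of_mem h4.1] at hlen
      set side : P → Bool := fun y => decide (y ∈ Y b) with hside
      have hA : ∀ x ∈ ((S.erase b : Finset P) : Set P), ∀ y ∈ ((S.erase b : Finset P) : Set P),
          x < y → side x = side y := by
        intro x hx y hy hxy
        simp only [hside]
        by_cases h5 : x ∈ Y b <;> by_cases h6 : y ∈ Y b <;> simp only [h5, h6]
        · exact absurd hxy (hinc b h4.1 x h5 y hy h6).1
        · exact absurd hxy (hinc b h4.1 y h6 x hx h5).2
      have hσA : ∀ x ∈ σ, x ∈ ((S.erase b : Finset P) : Set P) := by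
        intro x hx; rw [mem_enum] at hσ; exact (hσ.2 x).1 hx
      obtain ⟨c1, -⟩ := run_color side _ hA π σ [] hσA (by simp)
      obtain ⟨e1, -⟩ := exit_call_color side (run π σ []) x (by
        intro y hy z hz
        refine hA y ?_ z ?_
        · rcases run_mem _ _ _ _ hy with h | h
          · exact hσA _ h
          · simp at h
        · rcases run_mem _ _ _ _ hz with h | h
          · exact hσA _ h
          · simp at h) h3
      rw [c1, List.map_nil, hhead _ (by simpa using hlen)] at e1
      rw [List.getElem?_map, Option.map_eq_some_iff] at e1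
      obtain ⟨y, hy1, hy2⟩ := e1
      refine ⟨y, hy1, ?_⟩
      have hx : side x = true := by simp only [hside, decide_eq_true_eq]; exact hY b x h4
      rw [hx] at hy2
      simpa [hside] using hy2
    calc ((enum S).filter (GoodR S π)).card ≤ _ := Finset.card_le_card hsub2
      _ ≤ ∑ b ∈ S, (((enum (S.erase b)).filter (fun σ => ∃ y, σ[j]? = some y ∧ y ∈ Y b)).image
          (fun σ => b :: σ)).card := Finset.card_biUnion_le
      _ ≤ ∑ b ∈ S, (S.card - 2)! * (Y b).card := by
          apply Finset.sum_le_sum
          intro b hb
          refine Finset.card_image_le.trans ?_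
          have := card_pos (S.erase b) (Y b) j
          rwa [Finset.card_erase_of_mem hb, Nat.sub_sub] at this
      _ = (S.card - 2)! * ∑ b ∈ S, (Y b).card := by rw [Finset.mul_sum]
      _ ≤ (S.card - 2)! * (S.card - 1) := Nat.mul_le_mul_left _ hsum
      _ = (S.card - 1)! := by
          obtain ⟨m, hm⟩ : ∃ m, S.card = m + 2 := ⟨S.card - 2, by omega⟩
          rw [hm]
          simp only [Nat.add_sub_cancel, show m + 2 - 1 = m + 1 by omega, Nat.factorial_succ]
          ring
  · have : (enum S).filter (GoodR S π) = ∅ := by
      ext τ
      simp only [Finset.mem_filter, Finset.notMem_empty, iff_false, not_and]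
      rintro - ⟨b, σ, x, -, -, h⟩
      exact hS h.two_le
    rw [this]; simp

/-- enumerations with a fixed head -/
theorem card_head (W : Finset P) (p : List P → Prop)
    (h : ∀ b b' σ σ', b :: σ ∈ enum W → b' :: σ' ∈ enum W → p (b :: σ) → p (b' :: σ') → b = b')
    (hnil : ¬ p []) : ((enum W).filter p).card ≤ (W.card - 1)! := by
  by_cases hne : ((enum W).filter p).Nonempty
  · obtain ⟨τ, hτ⟩ := hne
    rw [Finset.mem_filter] at hτ
    cases τ with
    | nil => exact absurd hτ.2 hnil
    | cons b0 σ0 =>
      have hb0 : b0 ∈ W := by
        have := hτ.1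
        rw [mem_enum] at this
        exact (this.2 b0).1 (by simp)
      rw [← Finset.card_erase_of_mem hb0, ← card_enum]
      apply Finset.card_le_card_of_injOn (fun τ => τ.tail)
      · intro τ hτ'
        simp only [Finset.coe_filter, Set.mem_ofPred_eq] at hτ'
        cases τ with
        | nil => exact absurd hτ'.2 hnil
        | cons b σ =>
          have : b = b0 := h b b0 σ σ0 hτ'.1 hτ.1 hτ'.2 hτ.2
          subst this
          simp only [List.tail_cons, Finset.mem_coe]
          exact enum_tail hτ'.1
      · intro τ h1 τ' h2 h3
        simp only [Finset.coe_filter, Set.mem_ofPred_eq] at h1 h2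
        cases τ with
        | nil => exact absurd h1.2 hnil
        | cons b σ =>
          cases τ' with
          | nil => exact absurd h2.2 hnil
          | cons b' σ' =>
            simp only [List.tail_cons] at h3
            rw [h b b' σ σ' h1.1 h2.1 h1.2 h2.2, h3]
  · rw [Finset.not_nonempty_iff_eq_empty] at hne
    rw [hne]; simp

/-- base case for final joins -/
theorem PT_base (S : Finset P)
    (h : ∀ z ∈ S, ∀ b b' x x', Act S b x → Act S b' x' → x ≤ z → x' ≤ z → b = b') : PT S := by
  intro π z hz _
  have := card_head (S.erase z) (GoodT S π z) (by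
    rintro b b' σ σ' - - ⟨b1, σ1, x1, h1, h2, h3⟩ ⟨b2, σ2, x2, h4, h5, h6⟩
    simp only [List.cons.injEq] at h1 h4
    rw [h1.1, h4.1]
    exact h z hz b1 b2 x1 x2 h3 h6 (exit_le _ _ _ h2) (exit_le _ _ _ h5)) (by
    rintro ⟨b, σ, x, h, -⟩; simp at h)
  rwa [Finset.card_erase_of_mem hz, Nat.sub_sub] at this

theorem choose_fact1 (n k : ℕ) (h1 : 1 ≤ k) (h2 : k ≤ n) :
    (n - 1).choose (k - 1) * ((k - 1)! * (n - k)!) = (n - 1)! := by
  have := Nat.choose_mul_factorial_mul_factorial (show k - 1 ≤ n - 1 by omega)
  rw [show n - 1 - (k - 1) = n - k by omega] at this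
  rw [← this]; ring

theorem choose_fact2 (n k : ℕ) (h1 : 2 ≤ k) (h2 : k ≤ n) :
    (n - 2).choose (k - 2) * ((k - 1)! * (n - k)!) = (n - 2)! * (k - 1) := by
  have := Nat.choose_mul_factorial_mul_factorial (show k - 2 ≤ n - 2 by omega)
  rw [show n - 2 - (k - 2) = n - k by omega] at this
  rw [← this]
  obtain ⟨m, rfl⟩ : ∃ m, k = m + 2 := ⟨k - 2, by omega⟩
  simp only [Nat.add_sub_cancel, show m + 2 - 1 = m + 1 by omega, Nat.factorial_succ]
  ring

theorem PR_par_half (S T : Finset P) (hd : Disjoint S T)
    (hinc : ∀ x ∈ S, ∀ y ∈ T, ¬ x < y ∧ ¬ y < x) (hS : PR S) (π : List Bool)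
    (hπ : π.count true = (S ∪ T).card - 1) :
    ((enum (S ∪ T)).filter (fun τ => GoodR (S ∪ T) π τ ∧ ∃ b σ, τ = b :: σ ∧ b ∈ S)).card ≤
      ((S ∪ T).card - 2)! * (S.card - 1) := by
  set G := (enum (S ∪ T)).filter (fun τ => GoodR (S ∪ T) π τ ∧ ∃ b σ, τ = b :: σ ∧ b ∈ S) with hG
  have hcard : (S ∪ T).card = S.card + T.card := Finset.card_union_of_disjoint hd
  have hxS : ∀ b x, b ∈ S → Act (S ∪ T) b x → Act S b x := by
    intro b x hb hact
    have hx : x ∈ S := by
      rcases Finset.mem_union.1 hact.2.1 with h | h
      · exact h
      · exact absurd hact.2.2.1 (hinc b hb x h).1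
    exact ⟨hb, hx, hact.2.2.1, fun y hy => hact.2.2.2 y (Finset.mem_union_left _ hy)⟩
  by_cases hS2 : 2 ≤ S.card
  · obtain ⟨j, hj, hhead⟩ := crun_head π ((S ∪ T).card - 1) (by omega) hπ
    set side : P → Bool := fun y => decide (y ∈ S) with hside
    have hA : ∀ x ∈ ((S ∪ T : Finset P) : Set P), ∀ y ∈ ((S ∪ T : Finset P) : Set P),
        x < y → side x = side y := by
      intro x hx y hy hxy
      simp only [Finset.coe_union, Set.mem_union, Finset.mem_coe] at hx hy
      simp only [hside]
      by_cases h5 : x ∈ S <;> by_cases h6 : y ∈ S <;> simp only [h5, h6]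
      · exact absurd hxy (hinc x h5 y (hy.resolve_left h6)).1
      · exact absurd hxy (hinc y h6 x (hx.resolve_left h5)).2
    -- main facts about members of G
    have facts : ∀ τ ∈ G, ∃ b σ x, τ = b :: σ ∧ b ∈ S ∧ σ.length = (S ∪ T).card - 1 ∧
        (σ.map side)[j]? = some true ∧ Act S b x ∧
        (call (run (sub π (σ.map side) []) (σ.filter side) [])).getLast? = some x := by
      intro τ hτ
      rw [hG, Finset.mem_filter] at hτ
      obtain ⟨h1, ⟨b, σ, x, rfl, h3, h4⟩, b', σ', h5, h6⟩ := hτ
      simp only [List.cons.injEq] at h5
      have hbS : b ∈ S := h5.1 ▸ h6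
      have hσ := enum_tail h1
      have hlen := enum_length hσ
      rw [Finset.card_erase_of_mem h4.1] at hlen
      have hσA : ∀ x ∈ σ, x ∈ ((S ∪ T : Finset P) : Set P) := by
        intro x hx; rw [mem_enum] at hσ; exact Finset.mem_of_mem_erase ((hσ.2 x).1 hx)
      obtain ⟨c1, c2⟩ := run_color side _ hA π σ [] hσA (by simp)
      obtain ⟨e1, e2⟩ := exit_call_color side (run π σ []) x (by
        intro y hy z hz
        refine hA y ?_ z ?_
        · rcases run_mem _ _ _ _ hy with h | h
          · exact hσA _ h
          · simp at h
        · rcases run_mem _ _ _ _ hz with h | h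
          · exact hσA _ h
          · simp at h) h3
      have hact := hxS b x hbS h4
      have hx : side x = true := by simp only [hside, decide_eq_true_eq]; exact hact.2.1
      rw [c1, List.map_nil, hhead _ (by simpa using hlen), hx] at e1
      refine ⟨b, σ, x, rfl, hbS, hlen, e1, hact, ?_⟩
      have := e2 hx
      rw [c2] at this
      simpa using this
    have key := shuffle_count S T hd G (by rw [hG]; exact Finset.filter_subset _ _)
      ((Finset.powersetCard S.card (Finset.range (S ∪ T).card)).filter
        (fun A => 0 ∈ A ∧ j + 1 ∈ A)) (S.card - 1)! (by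
        intro τ hτ
        obtain ⟨b, σ, x, rfl, h2, h3, h4, -, -⟩ := facts τ hτ
        rw [Finset.mem_filter]
        refine ⟨colorSet_card Finset.subset_union_left (by
          rw [hG, Finset.mem_filter] at hτ; exact hτ.1), ?_, ?_⟩
        · simp only [colorSet, Finset.mem_filter, Finset.mem_range, List.length_cons]
          exact ⟨by omega, b, by simp, h2⟩
        · simp only [colorSet, Finset.mem_filter, Finset.mem_range, List.length_cons]
          rw [List.getElem?_map, Option.map_eq_some_iff] at h4
          obtain ⟨y, hy1, hy2⟩ := h4
          refine ⟨by omega, y, by simpa using hy1, ?_⟩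
          simpa [hside] using hy2) (by
        intro cs
        by_cases hex : ∃ τ ∈ G, τ.map (fun x => decide (x ∈ S)) = cs
        · obtain ⟨τ0, hτ0, hcs⟩ := hex
          obtain ⟨b0, σ0, x0, rfl, g2, g3, -, -, -⟩ := facts τ0 hτ0
          have hcount : (sub π cs.tail []).count true = S.card - 1 := by
            have h7 : cs.tail = σ0.map side := by rw [← hcs]; simp [hside]
            rw [h7, sub_count _ _ _ (by simp [g3, hπ])]
            rw [hG, Finset.mem_filter] at hτ0
            have h8 := enum_filter (S := S.erase b0) (enum_tail hτ0.1) (by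
              intro y hy
              rw [Finset.mem_erase] at hy ⊢
              exact ⟨hy.1, Finset.mem_union_left _ hy.2⟩)
            have h9 := enum_length h8
            rw [Finset.card_erase_of_mem g2] at h9
            rw [← h9, List.count_eq_countP, List.countP_map, List.countP_eq_length_filter]
            congr 1
            apply List.filter_congr
            intro y hy
            have h10 : y ≠ b0 := by
              rintro rfl
              have := hτ0.1
              rw [mem_enum, List.nodup_cons] at this
              exact this.1.1 hy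
            simp [hside, h10]
          refine le_trans (Finset.card_le_card ?_) (hS (sub π cs.tail []) hcount)
          intro ρ hρ
          rw [Finset.mem_filter] at hρ ⊢
          obtain ⟨hρ1, τ, hτ, ht1, ht2⟩ := hρ
          refine ⟨hρ1, ?_⟩
          obtain ⟨b, σ, x, rfl, f2, f3, f4, f5, f6⟩ := facts τ hτ
          refine ⟨b, σ.filter side, x, ?_, ?_, f5⟩
          · rw [← ht2]; simp [hside, f2]
          · have h7 : cs.tail = σ.map side := by rw [← ht1]; simp [hside]
            rw [h7]; exact f6
        · have : (enum S).filter (fun ρ => ∃ τ ∈ G,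
              τ.map (fun x => decide (x ∈ S)) = cs ∧
                τ.filter (fun x => decide (x ∈ S)) = ρ) = ∅ := by
            ext ρ
            simp only [Finset.mem_filter, Finset.notMem_empty, iff_false, not_and]
            rintro - ⟨τ, hτ, h1, -⟩
            exact hex ⟨τ, hτ, h1⟩
          rw [this]; simp)
    calc G.card ≤ _ := key
      _ ≤ ((S ∪ T).card - 2).choose (S.card - 2) * ((S.card - 1)! * T.card !) :=
          Nat.mul_le_mul_right _ (card_A1 _ _ _ hS2)
      _ = _ := by
          have := choose_fact2 (S ∪ T).card S.card hS2 (by omega)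
          rw [show (S ∪ T).card - S.card = T.card by omega] at this
          exact this
  · have : G = ∅ := by
      ext τ
      rw [hG]
      simp only [Finset.mem_filter, Finset.notMem_empty, iff_false, not_and]
      rintro - ⟨b, σ, x, rfl, h3, h4⟩ ⟨b', σ', h5, h6⟩
      simp only [List.cons.injEq] at h5
      exact hS2 (hxS b x (h5.1 ▸ h6) h4).two_le
    rw [this]; simp

theorem PR_par (S T : Finset P) (hd : Disjoint S T)
    (hinc : ∀ x ∈ S, ∀ y ∈ T, ¬ x < y ∧ ¬ y < x) (hS : PR S) (hT : PR T) : PR (S ∪ T) := by
  by_cases hSe : S = ∅
  · rw [hSe, Finset.empty_union]; exact hT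
  by_cases hTe : T = ∅
  · rw [hTe, Finset.union_empty]; exact hS
  have hSp : 1 ≤ S.card := Finset.card_pos.2 (Finset.nonempty_iff_ne_empty.2 hSe)
  have hTp : 1 ≤ T.card := Finset.card_pos.2 (Finset.nonempty_iff_ne_empty.2 hTe)
  have hcard : (S ∪ T).card = S.card + T.card := Finset.card_union_of_disjoint hd
  intro π hπ
  have h1 := PR_par_half S T hd hinc hS π hπ
  have h2 := PR_par_half T S hd.symm (fun x hx y hy => (hinc y hy x hx).symm) hT π
    (by rw [Finset.union_comm]; exact hπ)
  rw [Finset.union_comm T S] at h2
  have hsub : (enum (S ∪ T)).filter (GoodR (S ∪ T) π) ⊆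
      (enum (S ∪ T)).filter (fun τ => GoodR (S ∪ T) π τ ∧ ∃ b σ, τ = b :: σ ∧ b ∈ S) ∪
      (enum (S ∪ T)).filter (fun τ => GoodR (S ∪ T) π τ ∧ ∃ b σ, τ = b :: σ ∧ b ∈ T) := by
    intro τ hτ
    rw [Finset.mem_filter] at hτ
    rw [Finset.mem_union, Finset.mem_filter, Finset.mem_filter]
    have hg := hτ.2
    obtain ⟨b, σ, x, rfl, h3, h4⟩ := hτ.2
    rcases Finset.mem_union.1 h4.1 with h | h
    · left; exact ⟨hτ.1, hg, b, σ, rfl, h⟩
    · right; exact ⟨hτ.1, hg, b, σ, rfl, h⟩
  refine (Finset.card_le_card hsub).trans ((Finset.card_union_le _ _).trans ?_)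
  refine (Nat.add_le_add h1 h2).trans ?_
  rw [← Nat.mul_add]
  obtain ⟨m, hm⟩ : ∃ m, (S ∪ T).card = m + 2 := ⟨(S ∪ T).card - 2, by omega⟩
  rw [hm]
  simp only [Nat.add_sub_cancel, show m + 2 - 1 = m + 1 by omega, Nat.factorial_succ]
  rw [mul_comm (m + 1)]
  exact Nat.mul_le_mul_left _ (by omega)

end Props

section Props2

open Classical Nat

variable {P : Type*} [PartialOrder P]

/-- generic count: enumerations of `V ∪ W` whose head lies in `V`, with a bound for the
`V`-parts. -/
theorem head_count (V W : Finset P) (hd : Disjoint V W) (G : Finset (List P))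
    (hG : G ⊆ enum (V ∪ W)) (hhead : ∀ τ ∈ G, ∃ b σ, τ = b :: σ ∧ b ∈ V) (M : ℕ)
    (hM : ∀ cs : List Bool, ((enum V).filter (fun ρ => ∃ τ ∈ G,
      τ.map (fun x => decide (x ∈ V)) = cs ∧ τ.filter (fun x => decide (x ∈ V)) = ρ)).card ≤ M)
    (hMV : M ≤ (V.card - 1)!) :
    G.card ≤ (V.card + W.card - 1)! := by
  by_cases hV : 1 ≤ V.card
  · have hcard : (V ∪ W).card = V.card + W.card := Finset.card_union_of_disjoint hd
    have key := shuffle_count V W hd G hG
      ((Finset.powersetCard V.card (Finset.range (V ∪ W).card)).filter (fun A => 0 ∈ A)) M (by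
        intro τ hτ
        rw [Finset.mem_filter]
        refine ⟨colorSet_card Finset.subset_union_left (hG hτ), ?_⟩
        obtain ⟨b, σ, rfl, hb⟩ := hhead τ hτ
        simp only [colorSet, Finset.mem_filter, Finset.mem_range, List.length_cons]
        exact ⟨by omega, b, by simp, hb⟩) hM
    calc G.card ≤ _ := key
      _ ≤ ((V ∪ W).card - 1).choose (V.card - 1) * ((V.card - 1)! * W.card !) :=
          Nat.mul_le_mul (card_A0 _ _ hV) (Nat.mul_le_mul_right _ hMV)
      _ = (V.card + W.card - 1)! := by
          have := choose_fact1 (V ∪ W).card V.card hV (by omega)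
          rw [show (V ∪ W).card - V.card = W.card by omega] at this
          rw [this, hcard]
  · have : G = ∅ := by
      by_contra hne
      obtain ⟨τ, hτ⟩ := Finset.nonempty_iff_ne_empty.2 hne
      obtain ⟨b, σ, -, hb⟩ := hhead τ hτ
      exact hV (Finset.card_pos.2 ⟨b, hb⟩)
    rw [this]; simp

/-- same, with the condition for the `V`-parts expressed by a counted predicate -/
theorem head_count' (V W : Finset P) (hd : Disjoint V W) (G : Finset (List P))
    (hG : G ⊆ enum (V ∪ W)) (Q : List Bool → List P → Prop) (M : ℕ) (hMV : M ≤ (V.card - 1)!)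
    (hfacts : ∀ τ ∈ G, ∃ b σ, τ = b :: σ ∧ b ∈ V ∧
      Q (σ.map (fun x => decide (x ∈ V))) (b :: σ.filter (fun x => decide (x ∈ V))))
    (hQ : ∀ cs : List Bool, cs.length = (V ∪ W).card - 1 → cs.count true = V.card - 1 →
      ((enum V).filter (Q cs)).card ≤ M) :
    G.card ≤ (V.card + W.card - 1)! := by
  apply head_count V W hd G hG (fun τ hτ => by
    obtain ⟨b, σ, h1, h2, -⟩ := hfacts τ hτ
    exact ⟨b, σ, h1, h2⟩) M _ hMV
  intro cs
  by_cases hex : ∃ τ ∈ G, τ.map (fun x => decide (x ∈ V)) = cs
  · obtain ⟨τ0, hτ0, hcs⟩ := hex
    obtain ⟨b0, σ0, rfl, g2, -⟩ := hfacts τ0 hτ0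
    have h7 : cs.tail = σ0.map (fun x => decide (x ∈ V)) := by rw [← hcs]; simp
    have hlen : cs.tail.length = (V ∪ W).card - 1 := by
      have := enum_length (hG hτ0)
      rw [h7]; simp at this ⊢; omega
    have hcount : cs.tail.count true = V.card - 1 := by
      have h8 := enum_filter (S := V.erase b0) (enum_tail (hG hτ0)) (by
        intro y hy
        rw [Finset.mem_erase] at hy ⊢
        exact ⟨hy.1, Finset.mem_union_left _ hy.2⟩)
      have h9 := enum_length h8
      rw [Finset.card_erase_of_mem g2] at h9
      rw [h7, ← h9, List.count_eq_countP, List.countP_map, List.countP_eq_length_filter]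
      congr 1
      apply List.filter_congr
      intro y hy
      have h10 : y ≠ b0 := by
        rintro rfl
        have := hG hτ0
        rw [mem_enum, List.nodup_cons] at this
        exact this.1.1 hy
      simp [h10]
    refine le_trans (Finset.card_le_card ?_) (hQ cs.tail hlen hcount)
    intro ρ hρ
    rw [Finset.mem_filter] at hρ ⊢
    obtain ⟨hρ1, τ, hτ, ht1, ht2⟩ := hρ
    refine ⟨hρ1, ?_⟩
    obtain ⟨b, σ, rfl, f2, f3⟩ := hfacts τ hτ
    have h11 : cs.tail = σ.map (fun x => decide (x ∈ V)) := by rw [← ht1]; simp
    rw [h11, ← ht2]
    simpa [f2] using f3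
  · have : (enum V).filter (fun ρ => ∃ τ ∈ G,
        τ.map (fun x => decide (x ∈ V)) = cs ∧
          τ.filter (fun x => decide (x ∈ V)) = ρ) = ∅ := by
      ext ρ
      simp only [Finset.mem_filter, Finset.notMem_empty, iff_false, not_and]
      rintro - ⟨τ, hτ, h1, -⟩
      exact hex ⟨τ, hτ, h1⟩
    rw [this]; simp

theorem mem_of_run {S : Finset P} {π : List Bool} {σ : List P} (hσ : σ ∈ enum S) {y : P}
    (hy : y ∈ run π σ []) : y ∈ S := by
  rcases run_mem _ _ _ _ hy with h | h
  · rw [mem_enum] at hσ; exact (hσ.2 y).1 h
  · simp at h

/-- final join of `z ∈ S` in a disjoint union -/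
theorem PT_par_half (S T : Finset P) (hd : Disjoint S T)
    (hinc : ∀ x ∈ S, ∀ y ∈ T, ¬ x < y ∧ ¬ y < x) (hS : PT S) (π : List Bool) (z : P)
    (hz : z ∈ S) (hπ : π.count true = (S ∪ T).card - 2) :
    ((enum ((S ∪ T).erase z)).filter (GoodT (S ∪ T) π z)).card ≤ ((S ∪ T).card - 2)! := by
  have hcard : (S ∪ T).card = S.card + T.card := Finset.card_union_of_disjoint hd
  have hzT : z ∉ T := Finset.disjoint_left.1 hd hz
  have hE : (S ∪ T).erase z = S.erase z ∪ T := by
    rw [Finset.erase_union_distrib, Finset.erase_eq_of_notMem hzT]
  have hd' : Disjoint (S.erase z) T := Finset.disjoint_of_subset_left (Finset.erase_subset _ _) hd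
  have hSpos : 1 ≤ S.card := Finset.card_pos.2 ⟨z, hz⟩
  have hVc : (S.erase z).card = S.card - 1 := Finset.card_erase_of_mem hz
  set side : P → Bool := fun y => decide (y ∈ S) with hside
  have hA : ∀ x ∈ ((S ∪ T : Finset P) : Set P), ∀ y ∈ ((S ∪ T : Finset P) : Set P),
      x < y → side x = side y := by
    intro x hx y hy hxy
    simp only [Finset.coe_union, Set.mem_union, Finset.mem_coe] at hx hy
    simp only [hside]
    by_cases h5 : x ∈ S <;> by_cases h6 : y ∈ S <;> simp only [h5, h6]
    · exact absurd hxy (hinc x h5 y (hy.resolve_left h6)).1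
    · exact absurd hxy (hinc y h6 x (hx.resolve_left h5)).2
  have hfinal := head_count' (S.erase z) T hd' ((enum ((S ∪ T).erase z)).filter (GoodT (S ∪ T) π z))
    (by rw [← hE]; exact Finset.filter_subset _ _)
    (fun cs ρ => GoodT S (sub π cs []) z ρ) ((S.card - 2)!) (by rw [hVc, Nat.sub_sub]) (by
      intro τ hτ
      rw [Finset.mem_filter] at hτ
      obtain ⟨h1, b, σ, x, rfl, h3, h4⟩ := hτ
      have hσ := enum_tail h1
      have hzσ : z ∉ σ := by
        rw [mem_enum] at hσ
        intro h; have := (hσ.2 z).1 h
        simp at this
      have hbz : b ≠ z := by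
        rintro rfl
        rw [mem_enum] at h1
        have := (h1.2 b).1 (by simp)
        simp at this
      have hmem : ∀ y ∈ run π σ [], y ∈ ((S ∪ T : Finset P) : Set P) := by
        intro y hy
        exact Finset.mem_of_mem_erase (Finset.mem_of_mem_erase (mem_of_run hσ hy))
      have hσA : ∀ y ∈ σ, y ∈ ((S ∪ T : Finset P) : Set P) := by
        intro y hy
        rw [mem_enum] at hσ
        exact Finset.mem_of_mem_erase (Finset.mem_of_mem_erase ((hσ.2 y).1 hy))
      obtain ⟨c1, c2⟩ := run_color side _ hA π σ [] hσA (by simp)
      have hzA : z ∈ ((S ∪ T : Finset P) : Set P) := Finset.mem_union_left _ hz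
      obtain ⟨e1, e2⟩ := exit_pass_color side (run π σ []) z x (by
        intro y hy w hw
        refine hA y ?_ w ?_
        · rcases List.mem_cons.1 hy with rfl | h
          · exact hzA
          · exact hmem y h
        · rcases List.mem_cons.1 hw with rfl | h
          · exact hzA
          · exact hmem w h) h3
      have hsz : side z = true := by simp [hside, hz]
      have hxS : x ∈ S := by simpa [hside] using e1.trans hsz
      have hbS : b ∈ S := by
        rcases Finset.mem_union.1 h4.1 with h | h
        · exact h
        · exact absurd h4.2.2.1 (hinc x hxS b h).2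
      have hcongr : ∀ y ∈ σ, decide (y ∈ S.erase z) = side y := by
        intro y hy
        have : y ≠ z := fun h => hzσ (h ▸ hy)
        simp [hside, this]
      refine ⟨b, σ, rfl, Finset.mem_erase.2 ⟨hbz, hbS⟩, b, _, x, rfl, ?_,
        ⟨hbS, hxS, h4.2.2.1, fun y hy => h4.2.2.2 y (Finset.mem_union_left _ hy)⟩⟩
      rw [List.map_congr_left hcongr, List.filter_congr hcongr]
      have := e2 hsz
      rw [c2] at this
      simpa using this) (by
      intro cs hlen hcount
      apply hS (sub π cs []) z hz
      rw [sub_count _ _ _ (by
        rw [hπ, hlen, ← hE, Finset.card_erase_of_mem (Finset.mem_union_left _ hz), Nat.sub_sub]),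
        hcount, hVc, Nat.sub_sub])
  refine hfinal.trans ?_
  apply Nat.factorial_le
  omega

theorem PT_par (S T : Finset P) (hd : Disjoint S T)
    (hinc : ∀ x ∈ S, ∀ y ∈ T, ¬ x < y ∧ ¬ y < x) (hS : PT S) (hT : PT T) : PT (S ∪ T) := by
  intro π z hz hπ
  rcases Finset.mem_union.1 hz with h | h
  · exact PT_par_half S T hd hinc hS π z h hπ
  · have := PT_par_half T S hd.symm (fun x hx y hy => (hinc y hy x hx).symm) hT π z h
      (by rw [Finset.union_comm]; exact hπ)
    rwa [Finset.union_comm T S] at this

/-- ordinal sums: final call -/
theorem PR_ser (S F : Finset P) (hd : Disjoint S F) (hlt : ∀ x ∈ S, ∀ y ∈ F, x < y)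
    (hS2 : 2 ≤ S.card) (hS : PR S) : PR (S ∪ F) := by
  intro π hπ
  have hcard : (S ∪ F).card = S.card + F.card := Finset.card_union_of_disjoint hd
  obtain ⟨s0, hs0⟩ : S.Nonempty := Finset.card_pos.1 (by omega)
  set side : P → Bool := fun y => decide (y ∈ S) with hside
  have hA : ∀ x ∈ ((S ∪ F : Finset P) : Set P), ∀ y ∈ ((S ∪ F : Finset P) : Set P),
      side x = true → side y = false → x < y := by
    intro x _ y hy h1 h2
    simp only [hside, decide_eq_true_eq, decide_eq_false_iff_not] at h1 h2
    simp only [Finset.coe_union, Set.mem_union, Finset.mem_coe] at hy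
    exact hlt x h1 y (hy.resolve_left h2)
  have hfinal := head_count' S F hd ((enum (S ∪ F)).filter (GoodR (S ∪ F) π))
    (Finset.filter_subset _ _) (fun cs ρ => GoodR S (serp π cs) ρ) ((S.card - 1)!) le_rfl (by
      intro τ hτ
      rw [Finset.mem_filter] at hτ
      obtain ⟨h1, b, σ, x, rfl, h3, h4⟩ := hτ
      have hσ := enum_tail h1
      have hbS : b ∈ S := by
        rcases Finset.mem_union.1 h4.1 with h | h
        · exact h
        · exfalso
          have h5 := h4.2.2.2 s0 (Finset.mem_union_left _ hs0) ((hlt s0 hs0 b h).trans h4.2.2.1)
          rw [← h5] at h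
          exact Finset.disjoint_left.1 hd hs0 h
      have hσA : ∀ y ∈ σ, y ∈ ((S ∪ F : Finset P) : Set P) := by
        intro y hy
        rw [mem_enum] at hσ
        exact Finset.mem_of_mem_erase ((hσ.2 y).1 hy)
      obtain ⟨u', hu', hrun⟩ := ser_run side _ hA π σ [] [] hσA (by simp) (by simp)
      simp only [List.nil_append] at hrun
      have hfil : σ.filter side ∈ enum (S.erase b) := by
        have := enum_filter (S := S.erase b) hσ (by
          intro y hy
          rw [Finset.mem_erase] at hy ⊢
          exact ⟨hy.1, Finset.mem_union_left _ hy.2⟩)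
        have hc : σ.filter side = σ.filter (fun x => decide (x ∈ S.erase b)) := by
          apply List.filter_congr
          intro y hy
          have : y ≠ b := by
            rintro rfl
            rw [mem_enum, List.nodup_cons] at h1
            exact h1.1.1 hy
          simp [hside, this]
        rw [hc]; exact this
      set v' := run (serp π (σ.map side)) (σ.filter side) [] with hv'
      have hv'S : ∀ y ∈ v', y ∈ S := fun y hy => Finset.mem_of_mem_erase (mem_of_run hfil hy)
      have hlenσ : σ.length = (S ∪ F).card - 1 := by
        have := enum_length hσ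
        rwa [Finset.card_erase_of_mem h4.1] at this
      have hcnt : (σ.map side).count true = (σ.filter side).length := by
        rw [List.count_eq_countP, List.countP_map, List.countP_eq_length_filter]
        congr 1
        apply List.filter_congr
        intro y _; simp
      have hvlen : v'.length = S.card - 1 := by
        rw [hv', run_length _ _ _ (by
          rw [serp_count _ _ (by simp [hlenσ, hπ]), hcnt])]
        have := enum_length hfil
        rw [Finset.card_erase_of_mem hbS] at this
        simp [this]
      have hcall : call (run π σ []) = call u' ++ call v' := by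
        rw [hrun]
        apply call_upper
        intro y hy w hw
        have h5 := hu' w hw
        exact hA y (Finset.mem_union_left _ (hv'S y hy)) w h5.1 (by simp [hside, hv'S y hy]) h5.2
      have hcv : call v' ≠ [] := by
        intro h
        have := (call_perm v').length_eq
        rw [h] at this; simp at this; omega
      rw [hcall, List.getLast?_append_of_ne_nil _ hcv] at h3
      have hxS : x ∈ S := by
        have := List.mem_of_getLast? h3
        exact hv'S x ((call_perm v').mem_iff.1 this)
      exact ⟨b, σ, rfl, hbS, b, _, x, rfl, h3,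
        ⟨hbS, hxS, h4.2.2.1, fun y hy => h4.2.2.2 y (Finset.mem_union_left _ hy)⟩⟩) (by
      intro cs hlen hcount
      apply hS
      rw [serp_count _ _ (by rw [hπ, hlen]), hcount])
  rw [hcard]
  exact hfinal

/-- ordinal sums: final join -/
theorem PT_ser (S F : Finset P) (hd : Disjoint S F) (hlt : ∀ x ∈ S, ∀ y ∈ F, x < y)
    (hS2 : 2 ≤ S.card) (hS : PR S) (hT : PT S) : PT (S ∪ F) := by
  intro π z hz hπ
  have hcard : (S ∪ F).card = S.card + F.card := Finset.card_union_of_disjoint hd
  obtain ⟨s0, hs0⟩ : S.Nonempty := Finset.card_pos.1 (by omega)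
  set side : P → Bool := fun y => decide (y ∈ S) with hside
  have hA : ∀ x ∈ ((S ∪ F : Finset P) : Set P), ∀ y ∈ ((S ∪ F : Finset P) : Set P),
      side x = true → side y = false → x < y := by
    intro x _ y hy h1 h2
    simp only [hside, decide_eq_true_eq, decide_eq_false_iff_not] at h1 h2
    simp only [Finset.coe_union, Set.mem_union, Finset.mem_coe] at hy
    exact hlt x h1 y (hy.resolve_left h2)
  have hbmem : ∀ b x, Act (S ∪ F) b x → b ∈ S := by
    intro b x h4
    rcases Finset.mem_union.1 h4.1 with h | h
    · exact h
    · exfalso
      have h5 := h4.2.2.2 s0 (Finset.mem_union_left _ hs0) ((hlt s0 hs0 b h).trans h4.2.2.1)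
      rw [← h5] at h
      exact Finset.disjoint_left.1 hd hs0 h
  by_cases hzS : z ∈ S
  · have hzF : z ∉ F := Finset.disjoint_left.1 hd hzS
    have hE : (S ∪ F).erase z = S.erase z ∪ F := by
      rw [Finset.erase_union_distrib, Finset.erase_eq_of_notMem hzF]
    have hd' : Disjoint (S.erase z) F :=
      Finset.disjoint_of_subset_left (Finset.erase_subset _ _) hd
    have hVc : (S.erase z).card = S.card - 1 := Finset.card_erase_of_mem hzS
    have hfinal := head_count' (S.erase z) F hd'
      ((enum ((S ∪ F).erase z)).filter (GoodT (S ∪ F) π z))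
      (by rw [← hE]; exact Finset.filter_subset _ _)
      (fun cs ρ => GoodT S (serp π cs) z ρ) ((S.card - 2)!) (by rw [hVc, Nat.sub_sub]) (by
        intro τ hτ
        rw [Finset.mem_filter] at hτ
        obtain ⟨h1, b, σ, x, rfl, h3, h4⟩ := hτ
        have hσ := enum_tail h1
        have hbS := hbmem b x h4
        have hzσ : z ∉ σ := by
          rw [mem_enum] at hσ
          intro h; have := (hσ.2 z).1 h
          simp at this
        have hbz : b ≠ z := by
          rintro rfl
          rw [mem_enum] at h1
          have := (h1.2 b).1 (by simp)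
          simp at this
        have hσA : ∀ y ∈ σ, y ∈ ((S ∪ F : Finset P) : Set P) := by
          intro y hy
          rw [mem_enum] at hσ
          exact Finset.mem_of_mem_erase (Finset.mem_of_mem_erase ((hσ.2 y).1 hy))
        obtain ⟨u', hu', hrun⟩ := ser_run side _ hA π σ [] [] hσA (by simp) (by simp)
        simp only [List.nil_append] at hrun
        set v' := run (serp π (σ.map side)) (σ.filter side) [] with hv'
        have hv'S : ∀ y ∈ v', y ∈ S := by
          intro y hy
          rcases run_mem _ _ _ _ hy with h | h
          · have := (List.mem_filter.1 h).2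
            simpa [hside] using this
          · simp at h
        have hpass : pass (run π σ []) z = u' ++ pass v' z := by
          rw [hrun]
          apply pass_lower
          intro y hy hlt'
          have h5 := hu' y hy
          exact absurd (hA z (Finset.mem_union_left _ hzS) y h5.1 (by simp [hside, hzS]) h5.2)
            (lt_asymm hlt')
        rw [hpass, List.getLast?_append_of_ne_nil _ (pass_ne_nil _ _)] at h3
        have hxS : x ∈ S := by
          have := List.mem_of_getLast? h3
          rcases List.mem_cons.1 ((pass_perm v' z).mem_iff.1 this) with h | h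
          · rw [h]; exact hzS
          · exact hv'S x h
        have hcongr : ∀ y ∈ σ, decide (y ∈ S.erase z) = side y := by
          intro y hy
          have : y ≠ z := fun h => hzσ (h ▸ hy)
          simp [hside, this]
        refine ⟨b, σ, rfl, Finset.mem_erase.2 ⟨hbz, hbS⟩, b, _, x, rfl, ?_,
          ⟨hbS, hxS, h4.2.2.1, fun y hy => h4.2.2.2 y (Finset.mem_union_left _ hy)⟩⟩
        rw [List.map_congr_left hcongr, List.filter_congr hcongr]
        exact h3) (by
        intro cs hlen hcount
        apply hT (serp π cs) z hzS
        rw [serp_count _ _ (by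
          rw [hπ, hlen, ← hE, Finset.card_erase_of_mem (Finset.mem_union_left _ hzS),
            Nat.sub_sub]), hcount, hVc, Nat.sub_sub])
    refine hfinal.trans ?_
    apply Nat.factorial_le
    omega
  · have hzF : z ∈ F := (Finset.mem_union.1 hz).resolve_left hzS
    have hE : (S ∪ F).erase z = S ∪ F.erase z := by
      rw [Finset.erase_union_distrib, Finset.erase_eq_of_notMem hzS]
    have hd' : Disjoint S (F.erase z) :=
      Finset.disjoint_of_subset_right (Finset.erase_subset _ _) hd
    have hWc : (F.erase z).card = F.card - 1 := Finset.card_erase_of_mem hzF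
    have hFpos : 1 ≤ F.card := Finset.card_pos.2 ⟨z, hzF⟩
    have hfinal := head_count' S (F.erase z) hd'
      ((enum ((S ∪ F).erase z)).filter (GoodT (S ∪ F) π z))
      (by rw [← hE]; exact Finset.filter_subset _ _)
      (fun cs ρ => GoodR S (serp π cs) ρ) ((S.card - 1)!) le_rfl (by
        intro τ hτ
        rw [Finset.mem_filter] at hτ
        obtain ⟨h1, b, σ, x, rfl, h3, h4⟩ := hτ
        have hσ := enum_tail h1
        have hbS := hbmem b x h4
        have hσA : ∀ y ∈ σ, y ∈ ((S ∪ F : Finset P) : Set P) := by
          intro y hy
          rw [mem_enum] at hσ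
          exact Finset.mem_of_mem_erase (Finset.mem_of_mem_erase ((hσ.2 y).1 hy))
        obtain ⟨u', hu', hrun⟩ := ser_run side _ hA π σ [] [] hσA (by simp) (by simp)
        simp only [List.nil_append] at hrun
        have hfil : σ.filter side ∈ enum (S.erase b) := by
          have := enum_filter (S := S.erase b) hσ (by
            intro y hy
            rw [Finset.mem_erase] at hy
            rw [Finset.mem_erase, Finset.mem_erase]
            exact ⟨hy.1, fun h => hzS (h ▸ hy.2), Finset.mem_union_left _ hy.2⟩)
          have hc : σ.filter side = σ.filter (fun x => decide (x ∈ S.erase b)) := by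
            apply List.filter_congr
            intro y hy
            have : y ≠ b := by
              rintro rfl
              rw [mem_enum, List.nodup_cons] at h1
              exact h1.1.1 hy
            simp [hside, this]
          rw [hc]; exact this
        set v' := run (serp π (σ.map side)) (σ.filter side) [] with hv'
        have hv'S : ∀ y ∈ v', y ∈ S := fun y hy => Finset.mem_of_mem_erase (mem_of_run hfil hy)
        have hlenσ : σ.length = (S ∪ F).card - 2 := by
          have := enum_length hσ
          have hb2 : b ∈ (S ∪ F).erase z :=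
            Finset.mem_erase.2 ⟨fun h => hzS (h ▸ hbS), Finset.mem_union_left _ hbS⟩
          rwa [Finset.card_erase_of_mem hb2, Finset.card_erase_of_mem hz, Nat.sub_sub] at this
        have hcnt : (σ.map side).count true = (σ.filter side).length := by
          rw [List.count_eq_countP, List.countP_map, List.countP_eq_length_filter]
          congr 1
          apply List.filter_congr
          intro y _; simp
        have hvlen : v'.length = S.card - 1 := by
          rw [hv', run_length _ _ _ (by
            rw [serp_count _ _ (by simp [hlenσ, hπ]), hcnt])]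
          have := enum_length hfil
          rw [Finset.card_erase_of_mem hbS] at this
          simp [this]
        have hzside : side z = false := by simp [hside, hzS]
        have hpass : pass (run π σ []) z = pass u' z ++ call v' := by
          rw [hrun]
          apply pass_upper
          intro y hy w hw
          rcases List.mem_cons.1 hw with rfl | hw
          · exact hlt y (hv'S y hy) w hzF
          · have h5 := hu' w hw
            exact hA y (Finset.mem_union_left _ (hv'S y hy)) w h5.1
              (by simp [hside, hv'S y hy]) h5.2
        have hcv : call v' ≠ [] := by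
          intro h
          have := (call_perm v').length_eq
          rw [h] at this; simp at this; omega
        rw [hpass, List.getLast?_append_of_ne_nil _ hcv] at h3
        have hxS : x ∈ S := by
          have := List.mem_of_getLast? h3
          exact hv'S x ((call_perm v').mem_iff.1 this)
        exact ⟨b, σ, rfl, hbS, b, _, x, rfl, h3,
          ⟨hbS, hxS, h4.2.2.1, fun y hy => h4.2.2.2 y (Finset.mem_union_left _ hy)⟩⟩) (by
        intro cs hlen hcount
        apply hS
        rw [serp_count _ _ (by
          rw [hπ, hlen, ← hE, Finset.card_erase_of_mem hz, Nat.sub_sub]), hcount])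
    refine hfinal.trans ?_
    apply Nat.factorial_le
    omega

end Props2

section Classes

open Classical Nat

variable {P : Type*} [PartialOrder P]

/-- at most one active minimal element: final calls -/
theorem PR_one (S : Finset P) (h : ∀ b b' x x', Act S b x → Act S b' x' → b = b') : PR S := by
  by_cases hex : ∃ b x, Act S b x
  · obtain ⟨b0, x0, h0⟩ := hex
    apply PR_base S (fun b => if b = b0 then S.erase b0 else ∅)
    · intro b x hb
      have hbb : b = b0 := h _ _ _ _ hb h0
      subst hbb
      rw [if_pos rfl, Finset.mem_erase]
      exact ⟨(ne_of_lt hb.2.2.1).symm, hb.2.1⟩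
    · intro b _
      by_cases hb : b = b0
      · rw [if_pos hb, hb]
      · rw [if_neg hb]; exact Finset.empty_subset _
    · intro b _ x hx y hy hy'
      by_cases hb : b = b0
      · rw [if_pos hb] at hy'
        rw [hb] at hy
        exact absurd hy hy'
      · rw [if_neg hb] at hx
        exact absurd hx (Finset.notMem_empty _)
    · have hb0 : b0 ∈ S := h0.1
      rw [Finset.sum_eq_single b0]
      · rw [if_pos rfl, Finset.card_erase_of_mem hb0]
      · intro b _ hb
        rw [if_neg hb]; rfl
      · intro hcon; exact absurd hb0 hcon
  · apply PR_base S (fun _ => ∅)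
    · intro b x hb; exact absurd ⟨b, x, hb⟩ hex
    · intro b _; exact Finset.empty_subset _
    · intro b _ x hx; exact absurd hx (Finset.notMem_empty _)
    · simp

theorem PT_one (S : Finset P) (h : ∀ b b' x x', Act S b x → Act S b' x' → b = b') : PT S :=
  PT_base S (fun _ _ b b' x x' h1 h2 _ _ => h b b' x x' h1 h2)

/-- ordinal sum with a one-element bottom: one active minimal element -/
theorem act_ser_one {S F : Finset P} (hlt : ∀ x ∈ S, ∀ y ∈ F, x < y) (hS : S.card = 1) :
    ∀ b b' x x', Act (S ∪ F) b x → Act (S ∪ F) b' x' → b = b' := by
  obtain ⟨s, rfl⟩ := Finset.card_eq_one.1 hS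
  have key : ∀ b x, Act ({s} ∪ F) b x → b = s := by
    intro b x h
    rcases Finset.mem_union.1 h.1 with hb | hb
    · exact Finset.mem_singleton.1 hb
    · exact (h.2.2.2 s (by simp) ((hlt s (by simp) b hb).trans h.2.2.1)).symm
  intro b b' x x' h h'
  rw [key b x h, key b' x' h']

theorem disj_of_lt {S F : Finset P} (hlt : ∀ x ∈ S, ∀ y ∈ F, x < y) : Disjoint S F := by
  rw [Finset.disjoint_left]
  intro x h1 h2
  exact lt_irrefl _ (hlt x h1 x h2)

theorem PRT_ser (S F : Finset P) (hne : S.Nonempty) (hlt : ∀ x ∈ S, ∀ y ∈ F, x < y)
    (hS : PR S) (hT : PT S) : PR (S ∪ F) ∧ PT (S ∪ F) := by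
  have hd := disj_of_lt hlt
  by_cases h2 : 2 ≤ S.card
  · exact ⟨PR_ser S F hd hlt h2 hS, PT_ser S F hd hlt h2 hS hT⟩
  · have h1 : S.card = 1 := by have := Finset.card_pos.2 hne; omega
    exact ⟨PR_one _ (act_ser_one hlt h1), PT_one _ (act_ser_one hlt h1)⟩

theorem PR_ser' (S F : Finset P) (hne : S.Nonempty) (hlt : ∀ x ∈ S, ∀ y ∈ F, x < y)
    (hS : PR S) : PR (S ∪ F) := by
  have hd := disj_of_lt hlt
  by_cases h2 : 2 ≤ S.card
  · exact PR_ser S F hd hlt h2 hS
  · have h1 : S.card = 1 := by have := Finset.card_pos.2 hne; omega
    exact PR_one _ (act_ser_one hlt h1)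

end Classes

section Final

open Classical Nat

variable {P : Type*} [PartialOrder P] [Fintype P]

/-- the list of the elements in the order of their labels -/
noncomputable def labList (L : P ≃ Fin (Fintype.card P)) : List P :=
  List.ofFn (fun i => L.symm i)

theorem labList_rep (L : P ≃ Fin (Fintype.card P)) :
    Rep (fun x => (L x : ℕ) + 1) (labList L) where
  nodup := by
    unfold labList
    rw [List.nodup_ofFn]
    exact L.symm.injective
  mem := by
    intro x
    unfold labList
    rw [List.mem_ofFn]
    exact ⟨L x, by simp⟩
  lab := by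
    intro i h
    have h2 : i < Fintype.card P := by simpa [labList] using h
    have h3 : (labList L)[i] = L.symm ⟨i, h2⟩ := by
      simp [labList]
    rw [h3]
    simp

theorem labList_inj : Function.Injective (labList (P := P)) := by
  intro L L' h
  unfold labList at h
  rw [List.ofFn_inj] at h
  have : L.symm = L'.symm := Equiv.ext (fun i => congrFun h i)
  rw [← Equiv.symm_symm L, this, Equiv.symm_symm]

/-- the counting step -/
theorem tangled_count (hn : 2 ≤ Fintype.card P) (hT : PT (Finset.univ : Finset P)) :
    Nat.card {L : P ≃ Fin (Fintype.card P) // Tangled (fun x => (L x : ℕ) + 1)} ≤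
      (Fintype.card P - (Finset.univ.filter (fun x : P => IsMin x)).card) *
        (Fintype.card P - 2)! := by
  set n := Fintype.card P with hnn
  set N : Finset P := Finset.univ.filter (fun x : P => ¬ IsMin x) with hN
  set π : List Bool := List.replicate (n - 2) true with hπ
  have hcount : π.count true = (Finset.univ : Finset P).card - 2 := by
    rw [hπ, List.count_replicate_self, Finset.card_univ]
  set G : Finset (P × List P) := N.biUnion (fun z =>
    ((enum (Finset.univ.erase z)).filter (GoodT Finset.univ π z)).image (fun τ => (z, τ))) with hG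
  have hGcard : G.card ≤ N.card * (n - 2)! := by
    rw [hG]
    refine Finset.card_biUnion_le.trans ?_
    rw [← smul_eq_mul]
    apply Finset.sum_le_card_nsmul
    intro z hz
    refine Finset.card_image_le.trans ?_
    have := hT π z (Finset.mem_univ z) hcount
    rwa [Finset.card_univ] at this
  have hNcard : N.card = n - (Finset.univ.filter (fun x : P => IsMin x)).card := by
    have := Finset.card_filter_add_card_filter_not (s := (Finset.univ : Finset P))
      (fun x : P => IsMin x)
    rw [Finset.card_univ] at this
    rw [hN]; omega
  rw [← hNcard]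
  refine le_trans ?_ hGcard
  -- the map
  have hex : ∀ L : {L : P ≃ Fin (Fintype.card P) // Tangled (fun x => (L x : ℕ) + 1)},
      ∃ σ z b, labList L.1 = σ ++ [z] ++ [b] ∧ (z, b :: σ) ∈ G := by
    rintro ⟨L, hL⟩
    have hrep := labList_rep L
    obtain ⟨σ, z, b, a, h1, h2, h3⟩ := tangled_struct hn hrep hL
    refine ⟨σ, z, b, h1, ?_⟩
    have hlen : (labList L).length = n := hrep.card
    have hσlen : σ.length = n - 2 := by
      rw [h1] at hlen; simp at hlen; omega
    have hnd := hrep.nodup
    have hmem := hrep.mem
    simp only [h1] at hnd hmem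
    rw [hG, Finset.mem_biUnion]
    refine ⟨z, ?_, ?_⟩
    · rw [hN, Finset.mem_filter]
      refine ⟨Finset.mem_univ _, ?_⟩
      intro hmin
      have hle := exit_le _ _ _ h2
      have hlt : b < z := lt_of_lt_of_le h3.2.2.1 hle
      exact absurd (hmin hlt.le) (not_le_of_gt hlt)
    · rw [Finset.mem_image]
      refine ⟨b :: σ, ?_, rfl⟩
      rw [Finset.mem_filter]
      constructor
      · rw [mem_enum]
        simp only [List.append_assoc, List.cons_append, List.nil_append] at hnd hmem
        rw [List.nodup_append] at hnd
        obtain ⟨g1, g2, g3⟩ := hnd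
        constructor
        · rw [List.nodup_cons]
          exact ⟨fun hb => g3 b hb b (by simp) rfl, g1⟩
        · intro x
          rw [Finset.mem_erase]
          have hx := hmem x
          simp only [List.mem_append, List.mem_cons, List.not_mem_nil, or_false] at hx
          rw [List.mem_cons]
          constructor
          · intro hx2
            refine ⟨?_, Finset.mem_univ _⟩
            rintro rfl
            rcases hx2 with rfl | hx2
            · simp at g2
            · exact g3 x hx2 x (by simp) rfl
          · rintro ⟨hxz, -⟩
            rcases hx with hx | hx | hx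
            · exact Or.inr hx
            · exact absurd hx hxz
            · exact Or.inl hx
      · refine ⟨b, σ, a, rfl, ?_, h3⟩
        rw [hπ, ← hσlen, run_replicate]
        exact h2
  choose f g k hfg using hex
  have hinj : Function.Injective (fun L => (⟨(g L, k L :: f L), (hfg L).2⟩ : {x // x ∈ G})) := by
    intro L L' h
    simp only [Subtype.mk.injEq, Prod.mk.injEq, List.cons.injEq] at h
    obtain ⟨h1, h2, h3⟩ := h
    apply Subtype.ext
    apply labList_inj
    rw [(hfg L).1, (hfg L').1, h1, h2, h3]
  have := Nat.card_le_card_of_injective _ hinj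
  rwa [Nat.card_eq_fintype_card (α := {x // x ∈ G}), Fintype.card_coe] at this

end Final

section NFreeSplit

open Classical Nat

variable {P : Type*} [PartialOrder P]

/-- No four elements form an N shape, that is `a < b > c < d` with no other comparabilities. -/
def NFree (P : Type*) [PartialOrder P] : Prop :=
  ¬ ∃ a b c d : P, a < b ∧ c < b ∧ c < d ∧
    (¬ a ≤ c ∧ ¬ c ≤ a) ∧ (¬ a ≤ d ∧ ¬ d ≤ a) ∧ (¬ b ≤ d ∧ ¬ d ≤ b)

/-- `S` is split by `A` and `B` into a disjoint union or an ordinal sum -/
def Split (S A B : Finset P) : Prop :=
  A.Nonempty ∧ B.Nonempty ∧ A ∪ B = S ∧ Disjoint A B ∧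
    ((∀ x ∈ A, ∀ y ∈ B, ¬ x < y ∧ ¬ y < x) ∨ (∀ x ∈ A, ∀ y ∈ B, x < y))

/-- removing a maximal element: the parallel case, one half -/
theorem split_par_half (h : NFree P) {S A B : Finset P} {v : P} (hv : v ∈ S)
    (hvmax : ∀ y ∈ S, ¬ v < y) (hS : A ∪ B = S.erase v) (hd : Disjoint A B)
    (hinc : ∀ x ∈ A, ∀ y ∈ B, ¬ x < y ∧ ¬ y < x) (b : P) (hb : b ∈ B) (hbv : b < v)
    (hex : ∃ y ∈ A, ¬ y < v) : ∃ A' B', Split S A' B' := by
  obtain ⟨y, hy, hyv⟩ := hex
  have hAS : ∀ x ∈ A, x ∈ S ∧ x ≠ v := fun x hx => by
    have : x ∈ S.erase v := hS ▸ Finset.mem_union_left _ hx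
    exact ⟨Finset.mem_of_mem_erase this, Finset.ne_of_mem_erase this⟩
  have hBS : ∀ x ∈ B, x ∈ S ∧ x ≠ v := fun x hx => by
    have : x ∈ S.erase v := hS ▸ Finset.mem_union_right _ hx
    exact ⟨Finset.mem_of_mem_erase this, Finset.ne_of_mem_erase this⟩
  have key : ∀ x ∈ A, ¬ x < v → ∀ a ∈ A, a < v → ¬ x < a ∧ ¬ a < x := by
    intro x hx hxv a ha hav
    refine ⟨fun hxa => hxv (hxa.trans hav), fun hax => ?_⟩
    apply h
    refine ⟨b, v, a, x, hbv, hav, hax, ?_, ?_, ?_⟩
    · have h1 := hinc a ha b hb
      have h2 : a ≠ b := fun he => Finset.disjoint_left.1 hd ha (he ▸ hb)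
      exact ⟨fun hle => h1.2 (lt_of_le_of_ne hle h2.symm), fun hle => h1.1 (lt_of_le_of_ne hle h2)⟩
    · have h1 := hinc x hx b hb
      have h2 : x ≠ b := fun he => Finset.disjoint_left.1 hd hx (he ▸ hb)
      exact ⟨fun hle => h1.2 (lt_of_le_of_ne hle h2.symm), fun hle => h1.1 (lt_of_le_of_ne hle h2)⟩
    · have h2 := (hAS x hx).2
      exact ⟨fun hle => hvmax x (hAS x hx).1 (lt_of_le_of_ne hle h2.symm),
        fun hle => hxv (lt_of_le_of_ne hle h2)⟩
  refine ⟨A.filter (fun x => ¬ x < v), S \ A.filter (fun x => ¬ x < v),
    ⟨y, Finset.mem_filter.2 ⟨hy, hyv⟩⟩, ⟨v, ?_⟩, ?_, Finset.disjoint_sdiff, Or.inl ?_⟩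
  · rw [Finset.mem_sdiff, Finset.mem_filter]
    exact ⟨hv, fun hc => (hAS v hc.1).2 rfl⟩
  · apply Finset.union_sdiff_of_subset
    intro x hx
    exact (hAS x (Finset.mem_filter.1 hx).1).1
  · intro x hx z hz
    rw [Finset.mem_filter] at hx
    rw [Finset.mem_sdiff, Finset.mem_filter] at hz
    by_cases hzv : z = v
    · subst hzv
      exact ⟨hx.2, hvmax x (hAS x hx.1).1⟩
    · have hz' : z ∈ A ∪ B := by rw [hS, Finset.mem_erase]; exact ⟨hzv, hz.1⟩
      rcases Finset.mem_union.1 hz' with hzA | hzB
      · have hzlt : z < v := by
          by_contra hcon; exact hz.2 ⟨hzA, hcon⟩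
        exact key x hx.1 hx.2 z hzA hzlt
      · exact hinc x hx.1 z hzB

theorem split_of_nfree (h : NFree P) : ∀ (n : ℕ) (S : Finset P), S.card = n → 2 ≤ n →
    ∃ A B, Split S A B := by
  intro n
  induction n with
  | zero => intro S _ h2; omega
  | succ n ih =>
    intro S hcard _
    have hne : S.Nonempty := Finset.card_pos.1 (by omega)
    obtain ⟨v, hv⟩ := S.exists_maximal hne
    have hvS : v ∈ S := hv.prop
    have hvmax : ∀ y ∈ S, ¬ v < y := fun y hy hlt => hv.not_gt hy hlt
    have hc' : (S.erase v).card = n := by rw [Finset.card_erase_of_mem hvS]; omega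
    by_cases hn : 2 ≤ n
    · obtain ⟨A, B, hA, hB, hU, hd, hor⟩ := ih (S.erase v) hc' hn
      have hvA : v ∉ A := fun hc => by
        have : v ∈ S.erase v := hU ▸ Finset.mem_union_left _ hc
        simp at this
      have hvB : v ∉ B := fun hc => by
        have : v ∈ S.erase v := hU ▸ Finset.mem_union_right _ hc
        simp at this
      have hAS : ∀ x ∈ A, x ∈ S := fun x hx => by
        have : x ∈ S.erase v := hU ▸ Finset.mem_union_left _ hx
        exact Finset.mem_of_mem_erase this
      have hBS : ∀ x ∈ B, x ∈ S := fun x hx => by
        have : x ∈ S.erase v := hU ▸ Finset.mem_union_right _ hx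
        exact Finset.mem_of_mem_erase this
      have hSv : A ∪ B ∪ {v} = S := by
        rw [hU]; ext x
        simp only [Finset.mem_union, Finset.mem_erase, Finset.mem_singleton]
        constructor
        · rintro (⟨-, h1⟩ | rfl)
          · exact h1
          · exact hvS
        · intro h1; by_cases h2 : x = v
          · exact Or.inr h2
          · exact Or.inl ⟨h2, h1⟩
      rcases hor with hinc | hlt
      · by_cases hA1 : ∃ a ∈ A, a < v
        · by_cases hB1 : ∃ b ∈ B, b < v
          · obtain ⟨a, ha, hav⟩ := hA1
            obtain ⟨b, hb, hbv⟩ := hB1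
            by_cases hA2 : ∃ y ∈ A, ¬ y < v
            · exact split_par_half h hvS hvmax hU hd hinc b hb hbv hA2
            · by_cases hB2 : ∃ y ∈ B, ¬ y < v
              · exact split_par_half h hvS hvmax (by rw [Finset.union_comm]; exact hU) hd.symm
                  (fun x hx y hy => (hinc y hy x hx).symm) a ha hav hB2
              · push Not at hA2 hB2
                refine ⟨A ∪ B, {v}, ⟨a, Finset.mem_union_left _ ha⟩, ⟨v, by simp⟩, hSv, ?_,
                  Or.inr ?_⟩
                · rw [Finset.disjoint_singleton_right, Finset.mem_union]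
                  tauto
                · intro x hx y hy
                  rw [Finset.mem_singleton.1 hy]
                  rcases Finset.mem_union.1 hx with h1 | h1
                  · exact hA2 x h1
                  · exact hB2 x h1
          · push Not at hB1
            refine ⟨A ∪ {v}, B, ⟨v, by simp⟩, hB, ?_, ?_, Or.inl ?_⟩
            · rw [← hSv]; ext x; simp only [Finset.mem_union]; tauto
            · rw [Finset.disjoint_union_left]
              exact ⟨hd, by simpa using hvB⟩
            · intro x hx y hy
              rcases Finset.mem_union.1 hx with h1 | h1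
              · exact hinc x h1 y hy
              · rw [Finset.mem_singleton.1 h1]
                exact ⟨hvmax y (hBS y hy), hB1 y hy⟩
        · push Not at hA1
          refine ⟨A, B ∪ {v}, hA, ⟨v, by simp⟩, ?_, ?_, Or.inl ?_⟩
          · rw [← hSv]; ext x; simp only [Finset.mem_union]; tauto
          · rw [Finset.disjoint_union_right]
            exact ⟨hd, by simpa using hvA⟩
          · intro x hx y hy
            rcases Finset.mem_union.1 hy with h1 | h1
            · exact hinc x hx y h1
            · rw [Finset.mem_singleton.1 h1]
              exact ⟨hA1 x hx, hvmax x (hAS x hx)⟩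
      · obtain ⟨b0, hb0⟩ := hB
        by_cases hall : ∀ a ∈ A, a < v
        · refine ⟨A, B ∪ {v}, hA, ⟨v, by simp⟩, ?_, ?_, Or.inr ?_⟩
          · rw [← hSv]; ext x; simp only [Finset.mem_union]; tauto
          · rw [Finset.disjoint_union_right]
            exact ⟨hd, by simpa using hvA⟩
          · intro x hx y hy
            rcases Finset.mem_union.1 hy with h1 | h1
            · exact hlt x hx y h1
            · rw [Finset.mem_singleton.1 h1]
              exact hall x hx
        · have hBv : ∀ b ∈ B, ¬ b < v := by
            intro b hb hbv
            exact hall (fun a ha => (hlt a ha b hb).trans hbv)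
          by_cases hnone : ∀ a ∈ A, ¬ a < v
          · refine ⟨A ∪ B, {v}, ⟨b0, Finset.mem_union_right _ hb0⟩, ⟨v, by simp⟩, hSv, ?_,
              Or.inl ?_⟩
            · rw [Finset.disjoint_singleton_right, Finset.mem_union]
              tauto
            · intro x hx y hy
              rw [Finset.mem_singleton.1 hy]
              rcases Finset.mem_union.1 hx with h1 | h1
              · exact ⟨hnone x h1, hvmax x (hAS x h1)⟩
              · exact ⟨hBv x h1, hvmax x (hBS x h1)⟩
          · push Not at hall hnone
            obtain ⟨y0, hy0, hy0v⟩ := hall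
            obtain ⟨a0, ha0, ha0v⟩ := hnone
            have key : ∀ a ∈ A, a < v → ∀ y ∈ A, ¬ y < v → a < y := by
              intro a ha hav y hy hyv
              by_contra hcon
              apply h
              refine ⟨y, b0, a, v, hlt y hy b0 hb0, hlt a ha b0 hb0, hav, ?_, ?_, ?_⟩
              · constructor
                · intro hle
                  exact hyv (lt_of_le_of_lt hle hav)
                · intro hle
                  rcases lt_or_eq_of_le hle with h1 | h1
                  · exact hcon h1
                  · exact hyv (h1 ▸ hav)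
              · constructor
                · intro hle
                  rcases lt_or_eq_of_le hle with h1 | h1
                  · exact hyv h1
                  · exact hvA (h1 ▸ hy)
                · intro hle
                  rcases lt_or_eq_of_le hle with h1 | h1
                  · exact hvmax y (hAS y hy) h1
                  · exact hvA (h1 ▸ hy)
              · constructor
                · intro hle
                  rcases lt_or_eq_of_le hle with h1 | h1
                  · exact hBv b0 hb0 h1
                  · exact hvB (h1 ▸ hb0)
                · intro hle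
                  rcases lt_or_eq_of_le hle with h1 | h1
                  · exact hvmax b0 (hBS b0 hb0) h1
                  · exact hvB (h1 ▸ hb0)
            refine ⟨A.filter (fun x => x < v), S \ A.filter (fun x => x < v),
              ⟨a0, Finset.mem_filter.2 ⟨ha0, ha0v⟩⟩, ⟨v, ?_⟩, ?_, Finset.disjoint_sdiff, Or.inr ?_⟩
            · rw [Finset.mem_sdiff, Finset.mem_filter]
              exact ⟨hvS, fun hc => hvA hc.1⟩
            · apply Finset.union_sdiff_of_subset
              intro x hx
              exact hAS x (Finset.mem_filter.1 hx).1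
            · intro x hx z hz
              rw [Finset.mem_filter] at hx
              rw [Finset.mem_sdiff, Finset.mem_filter] at hz
              by_cases hzv : z = v
              · rw [hzv]; exact hx.2
              · have hz' : z ∈ A ∪ B := by rw [hU, Finset.mem_erase]; exact ⟨hzv, hz.1⟩
                rcases Finset.mem_union.1 hz' with hzA | hzB
                · exact key x hx.1 hx.2 z hzA (fun hc => hz.2 ⟨hzA, hc⟩)
                · exact hlt x hx.1 z hzB
    · -- two elements
      have hc1 : (S.erase v).card = 1 := by omega
      obtain ⟨u, hu⟩ := Finset.card_eq_one.1 hc1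
      have huS : u ∈ S.erase v := by rw [hu]; simp
      have huv : u ≠ v := Finset.ne_of_mem_erase huS
      have huS' : u ∈ S := Finset.mem_of_mem_erase huS
      refine ⟨{u}, {v}, ⟨u, by simp⟩, ⟨v, by simp⟩, ?_, by simpa using huv, ?_⟩
      · rw [← hu]; ext x
        simp only [Finset.mem_union, Finset.mem_erase, Finset.mem_singleton]
        constructor
        · rintro (⟨-, h1⟩ | rfl)
          · exact h1
          · exact hvS
        · intro h1; by_cases h2 : x = v
          · exact Or.inr h2
          · exact Or.inl ⟨h2, h1⟩
      · by_cases hlt : u < v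
        · right
          intro x hx y hy
          rw [Finset.mem_singleton.1 hx, Finset.mem_singleton.1 hy]
          exact hlt
        · left
          intro x hx y hy
          rw [Finset.mem_singleton.1 hx, Finset.mem_singleton.1 hy]
          exact ⟨hlt, hvmax u huS'⟩

theorem nfree_props (h : NFree P) : ∀ (n : ℕ) (S : Finset P), S.card = n → PR S ∧ PT S := by
  intro n
  induction n using Nat.strong_induction_on with
  | _ n ih =>
    intro S hcard
    by_cases hn : 2 ≤ n
    · obtain ⟨A, B, hA, hB, hU, hd, hor⟩ := split_of_nfree h n S hcard hn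
      have hAB : A.card + B.card = n := by
        rw [← Finset.card_union_of_disjoint hd, hU, hcard]
      have hA' := Finset.card_pos.2 hA
      have hB' := Finset.card_pos.2 hB
      obtain ⟨a1, a2⟩ := ih A.card (by omega) A rfl
      obtain ⟨b1, b2⟩ := ih B.card (by omega) B rfl
      rw [← hU]
      rcases hor with hinc | hlt
      · exact ⟨PR_par A B hd hinc a1 b1, PT_par A B hd hinc a2 b2⟩
      · exact PRT_ser A B hA hlt a1 a2
    · have hact : ∀ b b' x x', Act S b x → Act S b' x' → b = b' := by
        intro b b' x x' h1 _
        have := h1.two_le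
        omega
      exact ⟨PR_one S hact, PT_one S hact⟩

end NFreeSplit

section Result

open Classical Nat

/-- Class of subposets used below ordinal sums.  It contains every `S` for which one can choose,
for each `b ∈ S`, a set `Y b ⊆ S \ {b}` containing all elements whose only smaller element in `S`
is `b`, no element of `Y b` being comparable to an element of `S \ {b}` outside `Y b`, with
`∑ |Y b| ≤ |S| - 1`; it is closed under disjoint unions and under adding an arbitrary poset on
top. -/
inductive Lower {P : Type*} [PartialOrder P] : Finset P → Prop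
  | base (S : Finset P) (Y : P → Finset P)
      (hY : ∀ b ∈ S, ∀ x ∈ S, b < x → (∀ y ∈ S, y < x → y = b) → x ∈ Y b)
      (hsub : ∀ b ∈ S, Y b ⊆ S.erase b)
      (hinc : ∀ b ∈ S, ∀ x ∈ Y b, ∀ y ∈ S.erase b, y ∉ Y b → ¬ x < y ∧ ¬ y < x)
      (hsum : ∑ b ∈ S, (Y b).card ≤ S.card - 1) : Lower S
  | disjointUnion (S T : Finset P) (hd : Disjoint S T)
      (hinc : ∀ x ∈ S, ∀ y ∈ T, ¬ x < y ∧ ¬ y < x) (hS : Lower S) (hT : Lower T) : Lower (S ∪ T)
  | onTop (S F : Finset P) (hne : S.Nonempty) (hlt : ∀ x ∈ S, ∀ y ∈ F, x < y) (hS : Lower S) :
      Lower (S ∪ F)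

/-- The class of posets for which the bound is proved.  It contains every `S` in which no element
`z` is above (or equal to) elements `x, x'` whose only smaller elements in `S` are `b` and `b'`
respectively, with `b ≠ b'`; it is closed under disjoint unions and under adding an arbitrary
poset on top of a member that is also in `Lower`. -/
inductive Good {P : Type*} [PartialOrder P] : Finset P → Prop
  | base (S : Finset P)
      (h : ∀ z ∈ S, ∀ b ∈ S, ∀ b' ∈ S, ∀ x ∈ S, ∀ x' ∈ S, b < x → (∀ y ∈ S, y < x → y = b) →
        b' < x' → (∀ y ∈ S, y < x' → y = b') → x ≤ z → x' ≤ z → b = b') : Good S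
  | disjointUnion (S T : Finset P) (hd : Disjoint S T)
      (hinc : ∀ x ∈ S, ∀ y ∈ T, ¬ x < y ∧ ¬ y < x) (hS : Good S) (hT : Good T) : Good (S ∪ T)
  | onTop (S F : Finset P) (hne : S.Nonempty) (hlt : ∀ x ∈ S, ∀ y ∈ F, x < y) (hS : Good S)
      (hS' : Lower S) : Good (S ∪ F)

theorem Lower.pr {P : Type*} [PartialOrder P] {S : Finset P} (h : Lower S) : PR S := by
  induction h with
  | base S Y hY hsub hinc hsum =>
    exact PR_base S Y (fun b x hb => hY b hb.1 x hb.2.1 hb.2.2.1 hb.2.2.2) hsub hinc hsum
  | disjointUnion S T hd hinc _ _ h1 h2 => exact PR_par S T hd hinc h1 h2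
  | onTop S F hne hlt _ h1 => exact PR_ser' S F hne hlt h1

theorem Good.pt {P : Type*} [PartialOrder P] {S : Finset P} (h : Good S) : PT S := by
  induction h with
  | base S h =>
    exact PT_base S (fun z hz b b' x x' h1 h2 h3 h4 =>
      h z hz b h1.1 b' h2.1 x h1.2.1 x' h2.2.1 h1.2.2.1 h1.2.2.2 h2.2.2.1 h2.2.2.2 h3 h4)
  | disjointUnion S T hd hinc _ _ h1 h2 => exact PT_par S T hd hinc h1 h2
  | onTop S F hne hlt _ hL h1 => exact (PRT_ser S F hne hlt hL.pr h1).2

/-- The bound of the conjecture, `(n - s) (n - 2)!`, holds for every finite poset with `n ≥ 2`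
elements that is N-free (series-parallel), connected or not, and more generally for every poset
in the class `Good`. -/
theorem result {P : Type*} [PartialOrder P] [Fintype P] (hn : 2 ≤ Fintype.card P)
    (h : NFree P ∨ Good (Finset.univ : Finset P)) :
    Nat.card {L : P ≃ Fin (Fintype.card P) // Tangled (fun x => (L x : ℕ) + 1)} ≤
      (Fintype.card P - (Finset.univ.filter (fun x : P => IsMin x)).card) *
        (Fintype.card P - 2)! := by
  apply tangled_count hn
  rcases h with h | h
  · exact (nfree_props h _ _ rfl).2
  · exact h.pt

end Result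
end Pool.Agent.Results.MP_21b3ca_co.SeriesParallel
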